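import Pool.Agent.H223.PG.PDef
import Pool.Agent.H223.CE.Conv

set_option autoImplicit false
set_option linter.unusedSectionVars false

open Filter Topology

namespace Pool.Agent.H223.PG

open Pool.Agent.H223.CE Pool.Agent.H721R2 Pool.Agent.H721R2.CSys

/-- the real inequality -/
theorem pinch_real {C K R S U x y z t μ ν Λ : ℝ} {n m τ : ℕ} (hC : 1 ≤ C) (hK : 1 ≤ K)
    (hR : 0 ≤ R) (hU : 0 ≤ U) (hSU : S ≤ R + U) (hS : 0 ≤ S) (hμ : 1 < μ) (hν : 1 < ν) (hΛ : 1 < Λ)
    (hx : x = Real.log μ) (hy : y = Real.log ν) (hz : z = Real.log Λ) (ht : 0 < t)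
    (hn : (n : ℝ) * (z + t) ≤ (z + t) + τ * t)
    (hτ : ν ^ τ ≤ ν * (C * (1 + S)))
    (hm : μ ^ m ≤ K * Λ ^ n * (1 + R))
    (hUm : U ≤ C ∨ U ≤ 2 * C ^ 2 * Λ ^ m / Λ ^ n) :
    (1 - max (z * (z / x - 1)) 0 * t / ((z + t) * y)) * Real.log (1 + U) ≤
      (Real.log (3 * C ^ 2) + z / x * Real.log K + max (z * (z / x - 1)) 0 +
        max (z * (z / x - 1)) 0 * t / ((z + t) * y) * Real.log (ν * C)) +
      (z / x + max (z * (z / x - 1)) 0 * t / ((z + t) * y)) * Real.log (1 + R) := by
  have hx0 : 0 < x := by rw [hx]; exact Real.log_pos hμ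
  have hy0 : 0 < y := by rw [hy]; exact Real.log_pos hν
  have hz0 : 0 < z := by rw [hz]; exact Real.log_pos hΛ
  set q0 := max (z * (z / x - 1)) 0 with hq0
  have hq00 : 0 ≤ q0 := le_max_right _ _
  set ρ := Real.log (1 + R) with hρ
  set u := Real.log (1 + U) with hu
  have hρ0 : 0 ≤ ρ := Real.log_nonneg (by linarith)
  have hu0 : 0 ≤ u := Real.log_nonneg (by linarith)
  have hC0 : 0 < C := by linarith
  have hK0 : 0 < K := by linarith
  have hμ0 : 0 < μ := by linarith
  have hν0 : 0 < ν := by linarith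
  have hΛ0 : 0 < Λ := by linarith
  have hC2 : 1 ≤ C ^ 2 := one_le_pow₀ hC
  have c1 : 0 ≤ Real.log (3 * C ^ 2) := Real.log_nonneg (by linarith)
  have c2 : 0 ≤ Real.log K := Real.log_nonneg hK
  have c3 : 0 ≤ Real.log (ν * C) := Real.log_nonneg (by nlinarith)
  -- `τ y ≤ c₃ + ρ + u`
  have e1 : (τ : ℝ) * y ≤ Real.log (ν * C) + ρ + u := by
    have h1 : 1 + S ≤ (1 + R) * (1 + U) := by nlinarith [mul_nonneg hR hU]
    have h2 : ν ^ τ ≤ (ν * C) * ((1 + R) * (1 + U)) := by
      refine hτ.trans ?_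
      have : ν * (C * (1 + S)) = (ν * C) * (1 + S) := by ring
      rw [this]
      exact mul_le_mul_of_nonneg_left h1 (by positivity)
    have h3 := Real.log_le_log (by positivity) h2
    rw [Real.log_pow, Real.log_mul (x := ν * C) (by positivity) (by positivity),
      Real.log_mul (x := 1 + R) (by positivity) (by positivity), ← hy] at h3
    linarith
  -- `m x ≤ c₂ + n z + ρ`
  have e2 : (m : ℝ) * x ≤ Real.log K + n * z + ρ := by
    have h3 := Real.log_le_log (by positivity) hm
    rw [Real.log_pow, Real.log_mul (by positivity) (by positivity),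
      Real.log_mul (by positivity) (by positivity), Real.log_pow, ← hx, ← hz] at h3
    linarith
  have hzx : 0 ≤ z / x := by positivity
  set q := q0 * t / ((z + t) * y) with hq
  have hqy : 0 ≤ q := by positivity
  have e3 : (n : ℝ) * q0 ≤ q0 + q * (τ * y) := by
    have h1 : q * (τ * y) = q0 * (τ * t) / (z + t) := by
      rw [hq]; field_simp
    have h2 : (n : ℝ) ≤ 1 + τ * t / (z + t) := by
      have h3 : (1 : ℝ) + τ * t / (z + t) = ((z + t) + τ * t) / (z + t) := by field_simp
      rw [h3, le_div_iff₀ (by positivity)]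
      exact hn
    rw [h1]
    have h4 := mul_le_mul_of_nonneg_right h2 hq00
    have h5 : (1 + τ * t / (z + t)) * q0 = q0 + q0 * (τ * t) / (z + t) := by ring
    linarith
  have key : u ≤ Real.log (3 * C ^ 2) + z / x * (Real.log K + ρ) + (q0 +
      q * (Real.log (ν * C) + ρ + u)) := by
    rcases hUm with h | h
    · have h1 : u ≤ Real.log (3 * C ^ 2) := by
        apply Real.log_le_log (by linarith)
        nlinarith
      have h2 : 0 ≤ z / x * (Real.log K + ρ) := by positivity
      have h3 : 0 ≤ q * (Real.log (ν * C) + ρ + u) := by positivity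
      linarith
    · have h4 : 0 < Λ ^ m / Λ ^ n := by positivity
      rcases le_or_gt (Λ ^ m / Λ ^ n) 1 with h5 | h5
      · have h6 : U ≤ 2 * C ^ 2 := by
          have : 2 * C ^ 2 * Λ ^ m / Λ ^ n = 2 * C ^ 2 * (Λ ^ m / Λ ^ n) := by ring
          rw [this] at h
          nlinarith
        have h1 : u ≤ Real.log (3 * C ^ 2) := by
          apply Real.log_le_log (by linarith)
          nlinarith
        have h2 : 0 ≤ z / x * (Real.log K + ρ) := by positivity
        have h3 : 0 ≤ q * (Real.log (ν * C) + ρ + u) := by positivity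
        linarith
      · have h1 : u ≤ Real.log (3 * C ^ 2) + (m * z - n * z) := by
          have h2 : 1 + U ≤ (3 * C ^ 2) * (Λ ^ m / Λ ^ n) := by
            have : 2 * C ^ 2 * Λ ^ m / Λ ^ n = 2 * C ^ 2 * (Λ ^ m / Λ ^ n) := by ring
            rw [this] at h
            nlinarith
          have h3 := Real.log_le_log (by linarith) h2
          rw [Real.log_mul (by positivity) (by positivity),
            Real.log_div (by positivity) (by positivity), Real.log_pow, Real.log_pow, ← hz] at h3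
          exact h3
        have h6 : (m : ℝ) * z ≤ z / x * (Real.log K + n * z + ρ) := by
          have : (m : ℝ) * z = z / x * (m * x) := by field_simp
          rw [this]
          exact mul_le_mul_of_nonneg_left e2 hzx
        have h7 : z / x * (Real.log K + n * z + ρ) - n * z =
            z / x * (Real.log K + ρ) + n * (z * (z / x - 1)) := by ring
        have h8 : (n : ℝ) * (z * (z / x - 1)) ≤ n * q0 :=
          mul_le_mul_of_nonneg_left (le_max_left _ _) (Nat.cast_nonneg _)
        have h9 : q * (τ * y) ≤ q * (Real.log (ν * C) + ρ + u) :=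
          mul_le_mul_of_nonneg_left e1 hqy
        linarith
  nlinarith

/-- **The bracket is polynomially bounded.** -/
theorem poly_bracket {X : Type*} [MetricSpace X] {F : X ≃ₜ X} (h : Pinched F) :
    ∃ A k : ℝ, 0 ≤ k ∧ ∀ x y w : X, Asymp F x w → Asymp F.symm y w →
      Real.log (1 + dist y w) ≤ A + k * Real.log (1 + dist x y) := by
  obtain ⟨μ, ν, Λ, Λ', hμ, hν, hΛ, hΛ', ⟨Cu, hCu⟩, ⟨Cs, hCs⟩, ⟨CL, hCL⟩, ⟨CM, hCM⟩, hp⟩ := h
  set C := max 1 (max (max Cu Cs) (max CL CM)) with hC
  have hC1 : 1 ≤ C := le_max_left _ _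
  have hCu' : Cu ≤ C := (le_max_left _ _).trans ((le_max_left _ _).trans (le_max_right _ _))
  have hCs' : Cs ≤ C := (le_max_right _ _).trans ((le_max_left _ _).trans (le_max_right _ _))
  have hCL' : CL ≤ C := (le_max_left _ _).trans ((le_max_right _ _).trans (le_max_right _ _))
  have hCM' : CM ≤ C := (le_max_right _ _).trans ((le_max_right _ _).trans (le_max_right _ _))
  set lx := Real.log μ with hlx
  set ly := Real.log ν with hly
  set lz := Real.log Λ with hlz
  set lt := Real.log Λ' with hlt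
  have hx0 : 0 < lx := Real.log_pos hμ
  have hy0 : 0 < ly := Real.log_pos hν
  have hz0 : 0 < lz := Real.log_pos hΛ
  have ht0 : 0 < lt := Real.log_pos hΛ'
  have hΛ0 : 0 < Λ := by linarith
  have hΛ'0 : 0 < Λ' := by linarith
  have hμ0 : 0 < μ := by linarith
  set q := max (lz * (lz / lx - 1)) 0 * lt / ((lz + lt) * ly) with hq
  have hq0 : 0 ≤ q := div_nonneg (mul_nonneg (le_max_right _ _) ht0.le) (by positivity)
  have hq1 : q < 1 := by
    rw [hq, div_lt_one (by positivity)]
    rcases le_total (lz * (lz / lx - 1)) 0 with h | h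
    · rw [max_eq_right h, zero_mul]; positivity
    · rw [max_eq_left h]
      have h1 : lz / lx - 1 < ly / lt + ly / lz := by linarith
      have h2 : lz * (lz / lx - 1) * lt < lz * (ly / lt + ly / lz) * lt :=
        mul_lt_mul_of_pos_right (mul_lt_mul_of_pos_left h1 hz0) ht0
      have h3 : lz * (ly / lt + ly / lz) * lt = (lz + lt) * ly := by
        field_simp
      linarith
  have h1q : 0 < 1 - q := by linarith
  set K := 4 * μ * C ^ 3 with hK
  have hK1 : 1 ≤ K := by
    have : 1 ≤ C ^ 3 := one_le_pow₀ hC1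
    nlinarith
  set A0 := Real.log (3 * C ^ 2) + lz / lx * Real.log K + max (lz * (lz / lx - 1)) 0 +
    q * Real.log (ν * C) with hA0
  set k0 := lz / lx + q with hk0
  refine ⟨A0 / (1 - q), k0 / (1 - q), by positivity, fun x y w hxw hyw => ?_⟩
  have hR : 0 ≤ dist x y := dist_nonneg
  have hS : 0 ≤ dist x w := dist_nonneg
  have hU : 0 ≤ dist y w := dist_nonneg
  have hSU : dist x w ≤ dist x y + dist y w := dist_triangle _ _ _
  have near : ∀ (b t : ℝ), 1 < b → 1 ≤ t → ∃ n : ℕ, t ≤ b ^ n ∧ b ^ n ≤ b * t := by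
    intro b t hb ht
    obtain ⟨n, h1, h2⟩ := exists_nat_pow_near ht hb
    refine ⟨n + 1, h2.le, ?_⟩
    rw [pow_succ, mul_comm]
    exact mul_le_mul_of_nonneg_left h1 (by linarith)
  obtain ⟨τ, hτ1, hτ2⟩ := near ν (C * (1 + dist x w)) hν (by nlinarith)
  have f1 : dist (F^[τ] x) (F^[τ] w) ≤ C := by
    refine (hCs x w hxw τ (le_trans ?_ hτ1)).trans hCs'
    exact mul_le_mul_of_nonneg_right hCs' (by linarith)
  -- the time `n`
  obtain ⟨n, hnτ, hn1, hn2⟩ : ∃ n ≤ τ, Λ' ^ (τ - n) ≤ Λ ^ n ∧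
      (n : ℝ) * (lz + lt) ≤ (lz + lt) + τ * lt := by
    classical
    have hex : ∃ n, n ≤ τ ∧ Λ' ^ (τ - n) ≤ Λ ^ n := ⟨τ, le_rfl, by
      rw [Nat.sub_self, pow_zero]; exact one_le_pow₀ hΛ.le⟩
    obtain ⟨h1, h2⟩ := Nat.find_spec hex
    refine ⟨Nat.find hex, h1, h2, ?_⟩
    rcases Nat.eq_zero_or_pos (Nat.find hex) with h3 | h3
    · rw [h3]
      have : (0 : ℝ) ≤ τ * lt := by positivity
      push_cast
      linarith
    · have h4 := Nat.find_min hex (show Nat.find hex - 1 < Nat.find hex by omega)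
      set n := Nat.find hex with hn
      have h5 : Λ ^ (n - 1) < Λ' ^ (τ - (n - 1)) := by
        by_contra hcon
        exact h4 ⟨by omega, not_lt.mp hcon⟩
      have h6 := Real.log_lt_log (by positivity) h5
      rw [Real.log_pow, Real.log_pow, ← hlz, ← hlt, Nat.cast_sub (by omega : n - 1 ≤ τ),
        Nat.cast_sub (by omega : 1 ≤ n)] at h6
      push_cast at h6
      nlinarith
  have f2 : dist (F^[n] x) (F^[n] y) ≤ C * Λ ^ n * (1 + dist x y) := by
    refine (hCL x y n).trans ?_
    have : 0 ≤ Λ ^ n := by positivity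
    exact mul_le_mul_of_nonneg_right (mul_le_mul_of_nonneg_right hCL' this) (by linarith)
  have f1' : dist (F^[n] x) (F^[n] w) ≤ 2 * C ^ 2 * Λ ^ n := by
    have e : ∀ v : X, F.symm^[τ - n] (F^[τ] v) = F^[n] v := by
      intro v
      conv_lhs => rw [show τ = (τ - n) + n by omega, Function.iterate_add_apply]
      rw [show τ - n + n - n = τ - n by omega]
      exact eq_symm_iter_iter F.toEquiv (τ - n) _
    have h1 := hCM (F^[τ] x) (F^[τ] w) (τ - n)
    rw [e, e] at h1
    refine h1.trans ?_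
    have h6 : 0 < Λ' ^ (τ - n) := by positivity
    have h7 : CM * Λ' ^ (τ - n) ≤ C * Λ' ^ (τ - n) := mul_le_mul_of_nonneg_right hCM' h6.le
    have h8 : 0 ≤ dist (F^[τ] x) (F^[τ] w) := dist_nonneg
    have h9 : 1 + dist (F^[τ] x) (F^[τ] w) ≤ 2 * C := by linarith
    have h10 : 0 ≤ C * Λ' ^ (τ - n) := by positivity
    calc CM * Λ' ^ (τ - n) * (1 + dist (F^[τ] x) (F^[τ] w))
        ≤ C * Λ' ^ (τ - n) * (1 + dist (F^[τ] x) (F^[τ] w)) :=
          mul_le_mul_of_nonneg_right h7 (by linarith)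
      _ ≤ C * Λ' ^ (τ - n) * (2 * C) := mul_le_mul_of_nonneg_left h9 h10
      _ = 2 * C ^ 2 * Λ' ^ (τ - n) := by ring
      _ ≤ 2 * C ^ 2 * Λ ^ n := mul_le_mul_of_nonneg_left hn1 (by positivity)
  set D := dist (F^[n] y) (F^[n] w) with hD
  have hD0 : 0 ≤ D := dist_nonneg
  have hΛn : 1 ≤ Λ ^ n := one_le_pow₀ hΛ.le
  have hC2 : C ≤ C ^ 2 := by nlinarith
  have f3 : 1 + D ≤ 4 * C ^ 2 * Λ ^ n * (1 + dist x y) := by
    have h1 := dist_triangle (F^[n] y) (F^[n] x) (F^[n] w)
    rw [dist_comm (F^[n] y) (F^[n] x)] at h1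
    have h2 : C * Λ ^ n * (1 + dist x y) ≤ C ^ 2 * Λ ^ n * (1 + dist x y) :=
      mul_le_mul_of_nonneg_right (mul_le_mul_of_nonneg_right hC2 (by linarith)) (by linarith)
    have h3 : C ^ 2 * Λ ^ n ≤ C ^ 2 * Λ ^ n * (1 + dist x y) :=
      le_mul_of_one_le_right (by positivity) (by linarith)
    have h4 : 1 ≤ C ^ 2 * Λ ^ n := by nlinarith
    linarith
  obtain ⟨m, hm1, hm2⟩ := near μ (C * (1 + D)) hμ (by nlinarith)
  have hUn : Asymp F.symm (F^[n] y) (F^[n] w) := as_symm_iter F.toEquiv hyw n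
  have hm3 : μ ^ m ≤ K * Λ ^ n * (1 + dist x y) := by
    refine hm2.trans ?_
    have h1 : μ * (C * (1 + D)) ≤ μ * (C * (4 * C ^ 2 * Λ ^ n * (1 + dist x y))) :=
      mul_le_mul_of_nonneg_left (mul_le_mul_of_nonneg_left f3 (by linarith)) hμ0.le
    refine h1.trans (le_of_eq ?_)
    rw [hK]
    ring
  have hUm : dist y w ≤ C ∨ dist y w ≤ 2 * C ^ 2 * Λ ^ m / Λ ^ n := by
    rcases le_or_gt m n with hmn | hmn
    · left
      have h1 : Cu * (1 + D) ≤ μ ^ n := by
        refine le_trans ?_ (hm1.trans (pow_le_pow_right₀ hμ.le hmn))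
        exact mul_le_mul_of_nonneg_right hCu' (by linarith)
      have h2 := (hCu _ _ hUn n h1).trans hCu'
      have e : ∀ v : X, F.symm^[n] (F^[n] v) = v := fun v => eq_symm_iter_iter F.toEquiv n v
      rwa [e, e] at h2
    · right
      have h1 : Cu * (1 + D) ≤ μ ^ m := by
        refine le_trans ?_ hm1
        exact mul_le_mul_of_nonneg_right hCu' (by linarith)
      have h2 := (hCu _ _ hUn m h1).trans hCu'
      have e : ∀ v : X, F^[m - n] (F.symm^[m] (F^[n] v)) = v := by
        intro v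
        have h3 : F.symm^[m] (F^[n] v) = F.symm^[m - n] v := by
          conv_lhs => rw [show m = (m - n) + n by omega, Function.iterate_add_apply]
          rw [show F.symm^[n] (F^[n] v) = v from eq_symm_iter_iter F.toEquiv n v]
        rw [h3]
        exact eq_iter_symm_iter F.toEquiv (m - n) v
      have h4 := hCL (F.symm^[m] (F^[n] y)) (F.symm^[m] (F^[n] w)) (m - n)
      rw [e, e] at h4
      refine h4.trans ?_
      have h5 : 2 * C ^ 2 * Λ ^ m / Λ ^ n = 2 * C ^ 2 * Λ ^ (m - n) := by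
        rw [eq_comm, eq_div_iff (by positivity), mul_assoc, ← pow_add]
        congr 2
        omega
      rw [h5]
      have h6 : 0 < Λ ^ (m - n) := by positivity
      have h7 : CL * Λ ^ (m - n) ≤ C * Λ ^ (m - n) := mul_le_mul_of_nonneg_right hCL' h6.le
      have h8 : 0 ≤ dist (F.symm^[m] (F^[n] y)) (F.symm^[m] (F^[n] w)) := dist_nonneg
      have h9 : 1 + dist (F.symm^[m] (F^[n] y)) (F.symm^[m] (F^[n] w)) ≤ 2 * C := by linarith
      have h10 : 0 ≤ C * Λ ^ (m - n) := by positivity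
      calc CL * Λ ^ (m - n) * (1 + dist (F.symm^[m] (F^[n] y)) (F.symm^[m] (F^[n] w)))
          ≤ C * Λ ^ (m - n) * (1 + dist (F.symm^[m] (F^[n] y)) (F.symm^[m] (F^[n] w))) :=
            mul_le_mul_of_nonneg_right h7 (by linarith)
        _ ≤ C * Λ ^ (m - n) * (2 * C) := mul_le_mul_of_nonneg_left h9 h10
        _ = 2 * C ^ 2 * Λ ^ (m - n) := by ring
  have key := pinch_real hC1 hK1 hR hU hSU hS hμ hν hΛ hlx hly hlz ht0 hn2 hτ2 hm3 hUm
  rw [← hq, ← hA0, ← hk0] at key
  rw [div_mul_eq_mul_div, ← add_div, le_div_iff₀ h1q]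
  linarith

theorem bounded_of_poly {X : Type*} [MetricSpace X] {F : X ≃ₜ X}
    (h : ∃ A k : ℝ, 0 ≤ k ∧ ∀ x y w : X, Asymp F x w → Asymp F.symm y w →
      Real.log (1 + dist y w) ≤ A + k * Real.log (1 + dist x y)) : BoundedBrackets F := by
  obtain ⟨A, k, hk, h⟩ := h
  intro c
  refine ⟨c + Real.exp (A + k * Real.log (1 + c)), fun x y w hxy h1 h2 => ?_⟩
  have h3 := h x y w h1 h2
  have h4 : Real.log (1 + dist x y) ≤ Real.log (1 + c) :=
    Real.log_le_log (by have := dist_nonneg (x := x) (y := y); linarith) (by linarith)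
  have h5 : Real.log (1 + dist y w) ≤ A + k * Real.log (1 + c) :=
    h3.trans (by have := mul_le_mul_of_nonneg_left h4 hk; linarith)
  have h6 : 1 + dist y w ≤ Real.exp (A + k * Real.log (1 + c)) :=
    (Real.log_le_iff_le_exp (by have := dist_nonneg (x := y) (y := w); linarith)).mp h5
  have := dist_triangle x y w
  linarith

theorem bounded_symm {X : Type*} [MetricSpace X] {F : X ≃ₜ X} (h : BoundedBrackets F.symm) :
    BoundedBrackets F := by
  intro c
  obtain ⟨D, hD⟩ := h c
  refine ⟨c + D, fun x y w hxy h1 h2 => ?_⟩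
  have h3 := hD y x w (by rw [dist_comm]; exact hxy) h2 h1
  have := dist_triangle x y w
  linarith

theorem bounded_of_pinched {X : Type*} [MetricSpace X] {F : X ≃ₜ X}
    (h : Pinched F ∨ Pinched F.symm) : BoundedBrackets F := by
  rcases h with h | h
  · exact bounded_of_poly (poly_bracket h)
  · exact bounded_symm (bounded_of_poly (poly_bracket h))

end Pool.Agent.H223.PG
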