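import Pool.Agent.H223.PG.PDef
import Pool.Agent.H223.CE.Uniq
import Pool.Agent.H223.CE.Conv

set_option autoImplicit false
set_option linter.unusedSectionVars false

open Filter Topology

namespace Pool.Agent.H223.PG

open Pool.Agent.H223.CE Pool.Agent.H721R2 Pool.Agent.H721R2.CSys

variable {X : Type*} [MetricSpace X]

/-- coarse boundedness -/
def CoB (F : X → X) : Prop := ∀ c : ℝ, ∃ D : ℝ, ∀ x y, dist x y ≤ c → dist (F x) (F y) ≤ D

/-- forward asymptotic pairs at bounded distance are uniformly contracted to small scales -/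
def SC (F : X → X) : Prop :=
  ∀ K : ℝ, ∀ δ > 0, ∃ m : ℕ, ∀ x y, Asymp F x y → dist x y ≤ K → ∀ n ≥ m,
    dist (F^[n] x) (F^[n] y) ≤ δ

/-- polynomially bounded brackets -/
def PolyBrackets (F : X ≃ₜ X) : Prop :=
  ∃ A k : ℝ, 0 ≤ k ∧ ∀ x y w : X, Asymp F x w → Asymp F.symm y w →
    Real.log (1 + dist y w) ≤ A + k * Real.log (1 + dist x y)

/-- covering numbers of the images of balls -/
theorem cover_iter (hBG : BGeom X) {F : X → X} (hF : CoB F) {C : ℝ} (hC : 0 < C) :
    ∃ Q : ℕ, 1 ≤ Q ∧ ∀ (L : ℕ) (x : X), ∃ s : Finset X, s.card ≤ Q ^ L ∧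
      ∀ y, dist x y ≤ C → ∃ c ∈ s, dist c (F^[L] y) ≤ C := by
  classical
  obtain ⟨D, hD⟩ := hF C
  obtain ⟨Q, hQ⟩ := hBG D C hC
  refine ⟨max Q 1, le_max_right _ _, fun L => ?_⟩
  induction L with
  | zero =>
    intro x
    refine ⟨{x}, by simp, fun y hy => ⟨x, by simp, hy⟩⟩
  | succ L ih =>
    intro x
    obtain ⟨s, hs, hcov⟩ := ih x
    choose t ht1 ht2 using fun c => hQ (F c)
    refine ⟨s.biUnion t, ?_, fun y hy => ?_⟩
    · refine (Finset.card_biUnion_le_card_mul s t (max Q 1)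
        (fun c _ => (ht1 c).trans (le_max_left _ _))).trans ?_
      rw [pow_succ]
      exact Nat.mul_le_mul_right _ hs
    · obtain ⟨c, hc, hcy⟩ := hcov y hy
      obtain ⟨c', hc', hc'y⟩ := ht2 c (F (F^[L] y)) (hD _ _ hcy)
      refine ⟨c', Finset.mem_biUnion.mpr ⟨c, hc, hc'⟩, ?_⟩
      rw [Function.iterate_succ_apply']
      exact hc'y.le

/-- the time -/
theorem exists_time {b C A k : ℝ} (hb : 1 < b) (hC : 1 ≤ C) (hk : 0 ≤ k) (m : ℕ) :
    ∃ a c : ℝ, 0 ≤ c ∧ ∀ R : ℝ, 0 ≤ R → ∃ T : ℕ, m ≤ T ∧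
      C * (1 + (R + Real.exp (A + k * Real.log (1 + R)))) ≤ b ^ T ∧
      (T : ℝ) ≤ a + c * Real.log (1 + R) := by
  have hlb : 0 < Real.log b := Real.log_pos hb
  have hb0 : 0 < b := by linarith
  refine ⟨m + (Real.log b + Real.log C + Real.log (1 + Real.exp A)) / Real.log b,
    (k + 1) / Real.log b, by positivity, fun R hR => ?_⟩
  set ρ := Real.log (1 + R) with hρ
  have hρ0 : 0 ≤ ρ := Real.log_nonneg (by linarith)
  have he : Real.exp ρ = 1 + R := Real.exp_log (by linarith)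
  have h0 : 1 + (R + Real.exp (A + k * ρ)) ≤ (1 + Real.exp A) * Real.exp ((k + 1) * ρ) := by
    have h1 : 1 + R ≤ Real.exp ((k + 1) * ρ) := by
      rw [← he]
      apply Real.exp_le_exp.mpr
      nlinarith
    have h2 : Real.exp (A + k * ρ) ≤ Real.exp A * Real.exp ((k + 1) * ρ) := by
      rw [← Real.exp_add]
      apply Real.exp_le_exp.mpr
      nlinarith
    nlinarith
  have h1 : 1 ≤ C * (1 + (R + Real.exp (A + k * ρ))) := by
    have := Real.exp_pos (A + k * ρ)
    nlinarith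
  obtain ⟨n, hn1, hn2⟩ := exists_nat_pow_near h1 hb
  refine ⟨m + (n + 1), by omega, hn2.le.trans (pow_le_pow_right₀ hb.le (by omega)), ?_⟩
  have h2 : b ^ n ≤ C * ((1 + Real.exp A) * Real.exp ((k + 1) * ρ)) :=
    hn1.trans (mul_le_mul_of_nonneg_left h0 (by linarith))
  have hEA := Real.exp_pos A
  have h3 := Real.log_le_log (by positivity) h2
  rw [Real.log_pow, Real.log_mul (by positivity) (by positivity),
    Real.log_mul (by positivity) (by positivity), Real.log_exp] at h3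
  have h4 : (n : ℝ) ≤ (Real.log C + (Real.log (1 + Real.exp A) + (k + 1) * ρ)) / Real.log b := by
    rw [le_div_iff₀ hlb]; exact h3
  have h5 : (Real.log b + Real.log C + Real.log (1 + Real.exp A)) / Real.log b +
      (k + 1) / Real.log b * ρ = 1 +
      (Real.log C + (Real.log (1 + Real.exp A) + (k + 1) * ρ)) / Real.log b := by
    field_simp
    ring
  push_cast
  linarith

/-- **Polynomial packing growth.** -/
theorem packing {F : X ≃ₜ X} (hBG : BGeom X) (hF : CoB F) (hF' : CoB F.symm)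
    (hex : ∀ x y, ∃ w, Asymp F x w ∧ Asymp F.symm y w) (hBB : BoundedBrackets F) {μ ν : ℝ}
    (hμ : 1 < μ) (hν : 1 < ν) (hLu : LogContracts F.symm μ) (hLs : LogContracts F ν)
    (hSu : SC F.symm) (hSs : SC F) (hPB : PolyBrackets F) (r0 : ℝ) (hr0 : 0 < r0) :
    ∃ (d : ℕ) (B : ℝ), 0 ≤ B ∧ ∀ (x0 : X) (Z : Finset X) (R : ℝ), 0 ≤ R →
      (∀ z ∈ Z, dist x0 z ≤ R) → (∀ z ∈ Z, ∀ z' ∈ Z, dist z z' < r0 → z = z') →
      (Z.card : ℝ) ≤ B * (1 + R) ^ d := by
  classical
  obtain ⟨Cu, hCu⟩ := hLu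
  obtain ⟨Cs, hCs⟩ := hLs
  obtain ⟨A, k, hk, hA⟩ := hPB
  set C := max 1 (max Cu Cs) with hC
  have hC1 : 1 ≤ C := le_max_left _ _
  have hCu' : Cu ≤ C := (le_max_left _ _).trans (le_max_right _ _)
  have hCs' : Cs ≤ C := (le_max_right _ _).trans (le_max_right _ _)
  have hC0 : 0 < C := by linarith
  obtain ⟨D, hD⟩ := hBB (4 * C)
  set K := 4 * C + |D| with hK
  have hDK : D ≤ |D| := le_abs_self D
  obtain ⟨m1, hm1⟩ := hSu K (r0 / 3) (by linarith)
  obtain ⟨m2, hm2⟩ := hSs K (r0 / 3) (by linarith)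
  obtain ⟨Q1, hQ1, hcov1⟩ := cover_iter hBG hF hC0
  obtain ⟨Q2, hQ2, hcov2⟩ := cover_iter hBG hF' hC0
  set b := min μ ν with hb
  have hb1 : 1 < b := lt_min hμ hν
  obtain ⟨a, c, hc, htime⟩ := exists_time (A := A) hb1 hC1 hk (max m1 m2)
  set W : ℝ := (Q1 : ℝ) * Q2 with hW
  have hQ1' : (1 : ℝ) ≤ Q1 := by exact_mod_cast hQ1
  have hQ2' : (1 : ℝ) ≤ Q2 := by exact_mod_cast hQ2
  have hW1 : 1 ≤ W := by rw [hW]; nlinarith
  have hlW : 0 ≤ Real.log W := Real.log_nonneg hW1
  refine ⟨⌈2 * c * Real.log W⌉₊, Real.exp (2 * a * Real.log W), (Real.exp_pos _).le,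
    fun x0 Z R hR hZ hsep => ?_⟩
  obtain ⟨T, hmT, hT1, hT2⟩ := htime R hR
  set L := A + k * Real.log (1 + R) with hL
  have hbT1 : b ^ T ≤ μ ^ T := pow_le_pow_left₀ (by linarith) (min_le_left _ _) T
  have hbT2 : b ^ T ≤ ν ^ T := pow_le_pow_left₀ (by linarith) (min_le_right _ _) T
  -- contraction in time `T`
  have conU : ∀ x y, Asymp F.symm x y → dist x y ≤ R + Real.exp L →
      dist (F.symm^[T] x) (F.symm^[T] y) ≤ C := by
    intro x y h1 h2
    refine (hCu x y h1 T ?_).trans hCu'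
    refine le_trans ?_ (hT1.trans hbT1)
    exact mul_le_mul hCu' (by linarith) (by have := dist_nonneg (x := x) (y := y); linarith) hC0.le
  have conS : ∀ x y, Asymp F x y → dist x y ≤ R + Real.exp L →
      dist (F^[T] x) (F^[T] y) ≤ C := by
    intro x y h1 h2
    refine (hCs x y h1 T ?_).trans hCs'
    refine le_trans ?_ (hT1.trans hbT2)
    exact mul_le_mul hCs' (by linarith) (by have := dist_nonneg (x := x) (y := y); linarith) hC0.le
  obtain ⟨s1, hs1, hs1'⟩ := hcov1 (2 * T) (F.symm^[T] x0)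
  obtain ⟨s2, hs2, hs2'⟩ := hcov2 (2 * T) (F^[T] x0)
  have bnd : ∀ x y w : X, Asymp F x w → Asymp F.symm y w → dist x y ≤ R →
      dist y w ≤ Real.exp L := by
    intro x y w h1 h2 h3
    have h4 := hA x y w h1 h2
    have h5 : Real.log (1 + dist x y) ≤ Real.log (1 + R) :=
      Real.log_le_log (by have := dist_nonneg (x := x) (y := y); linarith) (by linarith)
    have h6 : Real.log (1 + dist y w) ≤ L :=
      h4.trans (by have := mul_le_mul_of_nonneg_left h5 hk; linarith)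
    have h7 := (Real.log_le_iff_le_exp (by have := dist_nonneg (x := y) (y := w); linarith)).mp h6
    linarith
  have hEL := Real.exp_pos L
  -- the points `Fᵀ z` and `F⁻ᵀ z`
  have hc1 : ∀ z ∈ Z, ∃ c ∈ s1, dist c (F^[T] z) ≤ 2 * C := by
    intro z hz
    obtain ⟨p, hp1, hp2⟩ := hex z x0
    have h1 := bnd z x0 p hp1 hp2 (by rw [dist_comm]; exact hZ z hz)
    have h2 : dist z p ≤ R + Real.exp L := by
      have h3 := dist_triangle z x0 p
      have h4 := hZ z hz
      rw [dist_comm] at h4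
      linarith
    have h3 := conS z p hp1 h2
    have h4 := conU x0 p hp2 (by linarith)
    obtain ⟨c, hc, hc'⟩ := hs1' _ h4
    have e : F^[2 * T] (F.symm^[T] p) = F^[T] p := by
      rw [two_mul, Function.iterate_add_apply]
      exact congrArg _ (eq_iter_symm_iter F.toEquiv T p)
    rw [e] at hc'
    refine ⟨c, hc, ?_⟩
    have h5 := dist_triangle c (F^[T] p) (F^[T] z)
    rw [dist_comm (F^[T] p)] at h5
    linarith
  have hc2 : ∀ z ∈ Z, ∃ c ∈ s2, dist c (F.symm^[T] z) ≤ 2 * C := by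
    intro z hz
    obtain ⟨p, hp1, hp2⟩ := hex x0 z
    have h1 := bnd x0 z p hp1 hp2 (hZ z hz)
    have h2 : dist x0 p ≤ R + Real.exp L := by
      have h3 := dist_triangle x0 z p
      have h4 := hZ z hz
      linarith
    have h3 := conU z p hp2 (by linarith)
    have h4 := conS x0 p hp1 h2
    obtain ⟨c, hc, hc'⟩ := hs2' _ h4
    have e : F.symm^[2 * T] (F^[T] p) = F.symm^[T] p := by
      rw [two_mul, Function.iterate_add_apply]
      exact congrArg _ (eq_symm_iter_iter F.toEquiv T p)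
    rw [e] at hc'
    refine ⟨c, hc, ?_⟩
    have h5 := dist_triangle c (F.symm^[T] p) (F.symm^[T] z)
    rw [dist_comm (F.symm^[T] p)] at h5
    linarith
  choose! g1 hg1 hg1' using hc1
  choose! g2 hg2 hg2' using hc2
  have hmT1 : m1 ≤ T := (le_max_left _ _).trans hmT
  have hmT2 : m2 ≤ T := (le_max_right _ _).trans hmT
  have hcard : Z.card ≤ (s1 ×ˢ s2).card := by
    apply Finset.card_le_card_of_injOn (fun z => (g1 z, g2 z))
    · intro z hz
      have hz' : z ∈ Z := hz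
      exact Finset.mem_coe.mpr (Finset.mem_product.mpr ⟨hg1 z hz', hg2 z hz'⟩)
    · intro z hz z' hz' heq
      have hz0 : z ∈ Z := hz
      have hz0' : z' ∈ Z := hz'
      have e1 : g1 z = g1 z' := congrArg Prod.fst heq
      have e2 : g2 z = g2 z' := congrArg Prod.snd heq
      have d1 : dist (F^[T] z) (F^[T] z') ≤ 4 * C := by
        have h1 := hg1' z hz0
        have h2 := hg1' z' hz0'
        rw [← e1] at h2
        have h3 := dist_triangle (F^[T] z) (g1 z) (F^[T] z')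
        rw [dist_comm (F^[T] z) (g1 z)] at h3
        linarith
      have d2 : dist (F.symm^[T] z) (F.symm^[T] z') ≤ 4 * C := by
        have h1 := hg2' z hz0
        have h2 := hg2' z' hz0'
        rw [← e2] at h2
        have h3 := dist_triangle (F.symm^[T] z) (g2 z) (F.symm^[T] z')
        rw [dist_comm (F.symm^[T] z) (g2 z)] at h3
        linarith
      obtain ⟨w, hw1, hw2⟩ := hex z z'
      apply hsep z hz0 z' hz0'
      have a1 : Asymp F (F^[T] z) (F^[T] w) := As.iter hw1 T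
      have a2 : Asymp F.symm (F^[T] z') (F^[T] w) := as_symm_iter F.toEquiv hw2 T
      have a3 : Asymp F.symm (F.symm^[T] z') (F.symm^[T] w) := As.iter hw2 T
      have a4 : Asymp F (F.symm^[T] z) (F.symm^[T] w) :=
        as_symm_symm_iter F.toEquiv hw1 T
      have b1 := hD _ _ _ d1 a1 a2
      have b2 : dist (F^[T] z') (F^[T] w) ≤ K := by
        have h3 := dist_triangle (F^[T] z') (F^[T] z) (F^[T] w)
        rw [dist_comm (F^[T] z') (F^[T] z)] at h3
        linarith
      have b3 := hD _ _ _ d2 a4 a3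
      have b4 : dist (F.symm^[T] z) (F.symm^[T] w) ≤ K := by linarith
      have c1 := hm1 _ _ a2 b2 T hmT1
      have c2 := hm2 _ _ a4 b4 T hmT2
      have e3 : ∀ v : X, F.symm^[T] (F^[T] v) = v := fun v => eq_symm_iter_iter F.toEquiv T v
      have e4 : ∀ v : X, F^[T] (F.symm^[T] v) = v := fun v => eq_iter_symm_iter F.toEquiv T v
      rw [e3, e3] at c1
      rw [e4, e4] at c2
      have h3 := dist_triangle z w z'
      rw [dist_comm w z'] at h3
      linarith
  rw [Finset.card_product] at hcard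
  have h1 : (Z.card : ℝ) ≤ W ^ (2 * T) := by
    have h2 : Z.card ≤ Q1 ^ (2 * T) * Q2 ^ (2 * T) := hcard.trans (Nat.mul_le_mul hs1 hs2)
    have h3 : (Z.card : ℝ) ≤ (Q1 : ℝ) ^ (2 * T) * (Q2 : ℝ) ^ (2 * T) := by exact_mod_cast h2
    rw [hW, mul_pow]
    exact h3
  refine h1.trans ?_
  have hW0 : 0 < W := by linarith
  have h2 : W ^ (2 * T) = Real.exp ((2 * T : ℕ) * Real.log W) := by
    rw [← Real.log_pow, Real.exp_log (by positivity)]
  have hρ0 : 0 ≤ Real.log (1 + R) := Real.log_nonneg (by linarith)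
  have h3 : ((2 * T : ℕ) : ℝ) * Real.log W ≤ 2 * a * Real.log W +
      (⌈2 * c * Real.log W⌉₊ : ℕ) * Real.log (1 + R) := by
    push_cast
    have h4 := mul_le_mul_of_nonneg_right hT2 hlW
    have h5 : 2 * c * Real.log W * Real.log (1 + R) ≤
        (⌈2 * c * Real.log W⌉₊ : ℕ) * Real.log (1 + R) :=
      mul_le_mul_of_nonneg_right (Nat.le_ceil _) hρ0
    nlinarith
  rw [h2]
  refine (Real.exp_le_exp.mpr h3).trans (le_of_eq ?_)
  rw [Real.exp_add, ← Real.log_pow, Real.exp_log (by positivity)]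

end Pool.Agent.H223.PG
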