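import Pool.Agent.H223.CE.Core

set_option autoImplicit false
set_option linter.unusedSectionVars false

namespace Pool.Agent.H223.PG

open Pool.Agent.H721R2 Pool.Agent.H721R2.CSys Pool.Agent.H789R2.AN Filter Topology
open Pool.Agent.H223.CE

section engine

variable {Y : Type*} [MetricSpace Y]

/-- The data for the engine: `dX` is the distance of the covering space; the brackets of points at
bounded distance are at bounded distance. -/
structure CoarseB (T : CSys Y) (dX : Y → Y → ℝ) : Prop where
  self : ∀ x, dX x x = 0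
  comm : ∀ x y, dX x y = dX y x
  tri : ∀ x y z, dX x z ≤ dX x y + dX y z
  small0 : ∀ x y, dist x y ≤ T.εs → dX x y ≤ 1
  bb : ∀ c : ℝ, ∃ D : ℝ, ∀ z y w, dX z y ≤ c → As T.g z w → As T.g.symm y w → dX z w ≤ D
  bp : ∀ r : ℝ, ∃ m : ℕ, ∀ (k : ℕ) (c : ℕ → Y),
    (∀ i < k, FRel T.g.symm T.δ (c i) (c (i + 1))) → (∀ i ≤ k, dX (c 0) (c i) ≤ r) →
    FRel T.g.symm (T.δ / 2) (T.g.symm^[m] (c 0)) (T.g.symm^[m] (c k))

/-- The engine: stable and unstable chains with the same base point span a rectangle. -/
theorem CoarseB.engine {T : CSys Y} {dX : Y → Y → ℝ}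
    (C : CoarseB T dX)
    (hms : (T.ms : ℝ) * T.δ ≤ T.εs) (hmu : (T.mu : ℝ) * T.δ ≤ T.εs) (N J : ℕ) (x z : ℕ → Y)
    (hx : ∀ i < N, FRel T.g T.δ (x i) (x (i + 1)))
    (hz : ∀ i < J, FRel T.g.symm T.δ (z i) (z (i + 1))) (h0 : x 0 = z 0) :
    ∃ w, As T.g.symm (x N) w ∧ As T.g (z J) w := by
  have hδ0 := T.δ_pos
  have hδε := T.δ_le_εs
  have hK0 := T.Kδ_pos
  have hKδ := T.δ_le_Kδ
  have h36 := T.e36
  have hK := T.one_le_K
  have hα0 := T.α_pos
  have hβ0 := T.β_pos
  obtain ⟨D, hD⟩ := C.bb (((N : ℝ) + 1) + ((J : ℝ) + 1))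
  obtain ⟨m, hm⟩ := C.bp (((N : ℝ) + 1) + ((J : ℝ) + 1) + D)
  obtain ⟨p, hp0, hpN, hp, hpn⟩ := nest' T hms N x hx m
  set N' := T.ms ^ m * N with hN'
  -- the times
  obtain ⟨k', hk1, hk2⟩ : ∃ k' : ℕ, 2 * (N' : ℝ) * T.α ^ (m + k') ≤ 1 ∧
      36 * T.K * T.β ^ k' ≤ 1 := by
    have t1 : Tendsto (fun k : ℕ => 2 * (N' : ℝ) * T.α ^ (m + k)) atTop (𝓝 0) := by
      have := ((tendsto_pow_atTop_nhds_zero_of_lt_one hα0
        (by linarith [T.α_le] : T.α < 1)).const_mul (2 * (N' : ℝ) * T.α ^ m))
      rw [mul_zero] at this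
      refine this.congr fun k => ?_
      rw [pow_add]; ring
    have t2 : Tendsto (fun k : ℕ => 36 * T.K * T.β ^ k) atTop (𝓝 0) := by
      have := ((tendsto_pow_atTop_nhds_zero_of_lt_one hβ0
        (by linarith [T.β_le] : T.β < 1)).const_mul (36 * T.K))
      rwa [mul_zero] at this
    obtain ⟨k, h1, h2⟩ := (((tendsto_order.mp t1).2 1 one_pos).and
      ((tendsto_order.mp t2).2 1 one_pos)).exists
    exact ⟨k, h1.le, h2.le⟩
  have hβk : T.β ^ (m + k') ≤ T.β ^ k' :=
    pow_le_pow_of_le_one hβ0 (by linarith [T.β_le]) (by omega)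
  obtain ⟨b, hb0, hbJ, hb, hbn⟩ := nest' T.symm hmu J z hz k'
  have hb0' : b 0 = T.g^[k'] (z 0) := hb0
  have hbJ' : b (T.mu ^ k' * J) = T.g^[k'] (z J) := hbJ
  set J' := T.mu ^ k' * J with hJ'
  have hb' : ∀ i < J', FRel T.g.symm T.δ (b i) (b (i + 1)) := hb
  have hbn' : ∀ i ≤ J', ∃ j ≤ J, FRel T.g.symm T.εs (z j) (T.g.symm^[k'] (b i)) := hbn
  have hxp : T.g^[m] (p 0) = x 0 := by rw [hp0, eq_iter_symm_iter]
  have back : ∀ a : Y, T.g.symm^[k'] (T.g^[m + k'] a) = T.g^[m] a := by
    intro a
    rw [add_comm m k', Function.iterate_add_apply, eq_symm_iter_iter]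
  -- a priori bounds on the base
  have baseS : ∀ i ≤ N', dX (x 0) (T.g^[m] (p i)) ≤ N + 1 := by
    intro i hi
    obtain ⟨j, hj, h1⟩ := hpn i hi
    have h2 : ∀ i ≤ N, dX (x 0) (x i) ≤ i := by
      intro i
      induction i with
      | zero =>
        intro _
        rw [C.self]; simp
      | succ i ih =>
        intro hi
        have h3 := ih (by omega)
        have h4 : dX (x i) (x (i + 1)) ≤ 1 :=
          C.small0 _ _ (((hx i (by omega)).dist_le).trans hδε)
        have h5 := C.tri (x 0) (x i) (x (i + 1))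
        push_cast
        linarith
    have hjN : (j : ℝ) ≤ N := by exact_mod_cast hj
    have h3 := h2 j hj
    have h4 : dX (x j) (T.g^[m] (p i)) ≤ 1 := C.small0 _ _ h1.dist_le
    have h5 := C.tri (x 0) (x j) (T.g^[m] (p i))
    linarith
  have baseU : ∀ s ≤ J', dX (x 0) (T.g.symm^[k'] (b s)) ≤ J + 1 := by
    intro s hs
    obtain ⟨j, hj, h1⟩ := hbn' s hs
    have h2 : ∀ i ≤ J, dX (z 0) (z i) ≤ i := by
      intro i
      induction i with
      | zero =>
        intro _
        rw [C.self]; simp
      | succ i ih =>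
        intro hi
        have h3 := ih (by omega)
        have h4 : dX (z i) (z (i + 1)) ≤ 1 :=
          C.small0 _ _ (((hz i (by omega)).dist_le).trans hδε)
        have h5 := C.tri (z 0) (z i) (z (i + 1))
        push_cast
        linarith
    have hjJ : (j : ℝ) ≤ J := by exact_mod_cast hj
    rw [h0]
    have h3 := h2 j hj
    have h4 : dX (z j) (T.g.symm^[k'] (b s)) ≤ 1 := C.small0 _ _ h1.dist_le
    have h5 := C.tri (z 0) (z j) (T.g.symm^[k'] (b s))
    linarith
  -- the rows
  have vert : ∀ a a' : Y, FRel T.g.symm (18 * (T.K * T.δ)) (T.g^[m + k'] a) (T.g^[m + k'] a') →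
      FRel T.g.symm T.δ (T.g^[m] a) (T.g^[m] a') := by
    intro a a' h
    have h1 := T.shrinkU (by linarith) h h.dist_le k'
    rw [back, back] at h1
    refine h1.mono ?_
    have h2 : T.β ^ k' * (18 * (T.K * T.δ)) = (36 * T.K * T.β ^ k') * (T.δ / 2) := by ring
    rw [h2]
    have h3 : (36 * T.K * T.β ^ k') * (T.δ / 2) ≤ 1 * (T.δ / 2) :=
      mul_le_mul_of_nonneg_right hk2 (by positivity)
    linarith
  have rows : ∀ t ≤ J', ∃ q : ℕ → ℕ → Y, q 0 = p ∧
      (∀ s ≤ t, T.g^[m + k'] (q s 0) = b s) ∧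
      (∀ s ≤ t, ∀ i < N', FRel T.g (2 * T.δ) (q s i) (q s (i + 1))) ∧
      (∀ s < t, ∀ i ≤ N', FRel T.g.symm (18 * (T.K * T.δ)) (T.g^[m + k'] (q s i))
        (T.g^[m + k'] (q (s + 1) i))) := by
    intro t
    induction t with
    | zero =>
      intro _
      refine ⟨fun _ => p, rfl, ?_, ?_, ?_⟩
      · intro s hs
        have hs0 : s = 0 := by omega
        rw [hs0, hb0', ← h0, add_comm m k', Function.iterate_add_apply, hxp]
      · intro s _ i hi
        exact (hp i hi).mono (by linarith)
      · intro s hs; omega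
    | succ t ih =>
      intro ht
      obtain ⟨q, hq0, hqb, hqS, hqU⟩ := ih (by omega)
      have hB : FRel T.g.symm T.δ (T.g^[m + k'] (q t 0)) (b (t + 1)) := by
        rw [hqb t le_rfl]; exact hb' t (by omega)
      obtain ⟨p', hp'0, hp'S, hp'U⟩ := T.push (m + k') N' hk1 (2 * T.δ) le_rfl (by positivity)
        (q t) (hqS t le_rfl) (b (t + 1)) hB
      have h3δ : 2 * T.δ + 36 * T.K * T.β ^ (m + k') * T.δ ≤ 3 * T.δ := by
        have h1 : 36 * T.K * T.β ^ (m + k') ≤ 36 * T.K * T.β ^ k' :=
          mul_le_mul_of_nonneg_left hβk (by positivity)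
        have h2 : 36 * T.K * T.β ^ (m + k') * T.δ ≤ 1 * T.δ :=
          mul_le_mul_of_nonneg_right (h1.trans hk2) hδ0.le
        linarith
      have hp'S3 : ∀ i < N', FRel T.g (3 * T.δ) (p' i) (p' (i + 1)) := fun i hi =>
        (hp'S i hi).mono h3δ
      -- closeness to the base row
      have close : ∀ i ≤ N', FRel T.g.symm (T.δ / 2) (p i) (p' i) := by
        intro i hi
        let c : ℕ → Y := fun s => if s ≤ t then T.g^[m] (q s i) else T.g^[m] (p' i)
        have hc1 : ∀ s ≤ t, c s = T.g^[m] (q s i) := fun s hs => if_pos hs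
        have hc2 : c (t + 1) = T.g^[m] (p' i) := if_neg (by omega)
        have hstep : ∀ s < t + 1, FRel T.g.symm T.δ (c s) (c (s + 1)) := by
          intro s hs
          rcases Nat.lt_or_ge s t with h | h
          · rw [hc1 s h.le, hc1 (s + 1) h]
            exact vert _ _ (hqU s h i hi)
          · have hst : s = t := by omega
            subst hst
            rw [hc1 s le_rfl, hc2]
            exact vert _ _ (hp'U i hi)
        have hc0 : c 0 = T.g^[m] (p i) := by rw [hc1 0 (Nat.zero_le _), hq0]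
        have hasU := as_chain (g := T.g.symm) (c := c) (k := t + 1)
          (fun s hs => asU_of_frel T hδε (hstep s hs))
        have hball : ∀ s ≤ t + 1, dX (c 0) (c s) ≤
            ((N : ℝ) + 1) + ((J : ℝ) + 1) + D := by
          intro s hs
          -- the row at level `s`
          obtain ⟨r, hr1, hr2, hr3⟩ : ∃ r : ℕ → Y, T.g^[m + k'] (r 0) = b s ∧
              c s = T.g^[m] (r i) ∧ ∀ i < N', FRel T.g (3 * T.δ) (r i) (r (i + 1)) := by
            rcases Nat.lt_or_ge s (t + 1) with h | h
            · exact ⟨q s, hqb s (by omega), hc1 s (by omega), fun i hi =>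
                (hqS s (by omega) i hi).mono (by linarith)⟩
            · have hst : s = t + 1 := by omega
              subst hst
              exact ⟨p', hp'0, hc2, hp'S3⟩
          have hz1 : T.g^[m] (r 0) = T.g.symm^[k'] (b s) := by rw [← hr1, back]
          have hS : As T.g (T.g^[m] (r 0)) (c s) := by
            rw [hr2]
            refine As.iter ?_ m
            exact as_chain (fun l hl => as_of_frel T (by linarith) (hr3 l hl)) i hi
          rw [hz1] at hS
          have hbS := baseS i hi
          have hbU := baseU s (by omega)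
          rw [← hc0] at hbS
          have hzy : dX (T.g.symm^[k'] (b s)) (c 0) ≤ ((N : ℝ) + 1) + ((J : ℝ) + 1) := by
            have e1 := C.tri (T.g.symm^[k'] (b s)) (x 0) (c 0)
            rw [C.comm (T.g.symm^[k'] (b s)) (x 0)] at e1
            linarith
          have e2 := hD _ _ _ hzy hS (hasU s hs)
          have e3 := C.tri (c 0) (T.g.symm^[k'] (b s)) (c s)
          rw [C.comm (c 0) (T.g.symm^[k'] (b s))] at e3
          linarith
        have h1 := hm (t + 1) c hstep hball
        rw [hc0, hc2, eq_symm_iter_iter, eq_symm_iter_iter] at h1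
        exact h1
      refine ⟨fun s => if s ≤ t then q s else p', ?_, ?_, ?_, ?_⟩
      · simp only [Nat.zero_le, if_true]; exact hq0
      · intro s hs
        dsimp only
        rcases Nat.lt_or_ge s (t + 1) with h | h
        · rw [if_pos (by omega)]; exact hqb s (by omega)
        · have hst : s = t + 1 := by omega
          subst hst
          rw [if_neg (by omega)]; exact hp'0
      · intro s hs i hi
        dsimp only
        rcases Nat.lt_or_ge s (t + 1) with h | h
        · rw [if_pos (by omega)]; exact hqS s (by omega) i hi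
        · have hst : s = t + 1 := by omega
          subst hst
          rw [if_neg (by omega)]
          apply T.shrink0 (ε := 3 * T.δ) (by linarith) (hp'S3 i hi)
          have h1 := (close i hi.le).dist_le
          have h2 := (close (i + 1) hi).dist_le
          have h3 := (hp i hi).dist_le
          have h4 := dist_triangle4 (p' i) (p i) (p (i + 1)) (p' (i + 1))
          rw [dist_comm (p' i) (p i)] at h4
          linarith
      · intro s hs i hi
        dsimp only
        rcases Nat.lt_or_ge s t with h | h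
        · rw [if_pos (by omega), if_pos (by omega)]; exact hqU s h i hi
        · have hst : s = t := by omega
          subst hst
          rw [if_pos le_rfl, if_neg (by omega)]
          exact hp'U i hi
  obtain ⟨q, hq0, hqb, hqS, hqU⟩ := rows J' le_rfl
  refine ⟨T.g^[m] (q J' N'), ?_, ?_⟩
  · have h1 := as_chain (g := T.g.symm) (c := fun s => T.g^[m] (q s N')) (k := J')
      (fun s hs => asU_of_frel T hδε (vert _ _ (hqU s hs N' le_rfl))) J' le_rfl
    have h2 : T.g^[m] (q 0 N') = x N := by rw [hq0, hpN, eq_iter_symm_iter]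
    simp only [h2] at h1
    exact h1
  · have h1 := as_chain (g := T.g) (c := q J') (k := N')
      (fun i hi => as_of_frel T (by linarith) (hqS J' le_rfl i hi)) N' le_rfl
    have h2 := h1.iter m
    have h3 : T.g^[m] (q J' 0) = z J := by
      rw [← back, hqb J' le_rfl, hbJ', eq_symm_iter_iter]
    rwa [h3] at h2

end engine

end Pool.Agent.H223.PG
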