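import Pool.Agent.H223.PG.Sc
import Pool.Agent.H223.PG.Pinch
import Pool.Agent.H223.CC.Man

set_option autoImplicit false
set_option linter.unusedSectionVars false

open scoped Manifold ContDiff Topology Pointwise
open Set Filter

namespace Pool.Agent.H223.PG

open Pool.Agent.H721R2 Pool.Agent.H789R2.AN Pool.Agent.H721R2.CSys
open Pool.Agent.H223.CE

/-- from the growth of separated sets to the growth of the group -/
theorem group_growth {X Γ : Type*} [MetricSpace X] [Group Γ] [MulAction Γ X]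
    [IsIsometricSMul Γ X] (x0 : X) {r0 : ℝ}
    (hinj : ∀ g h : Γ, dist (g • x0) (h • x0) < r0 → g = h) (hr0 : 0 < r0)
    (h : ∃ (d : ℕ) (B : ℝ), 0 ≤ B ∧ ∀ (x0 : X) (Z : Finset X) (R : ℝ), 0 ≤ R →
      (∀ z ∈ Z, dist x0 z ≤ R) → (∀ z ∈ Z, ∀ z' ∈ Z, dist z z' < r0 → z = z') →
      (Z.card : ℝ) ≤ B * (1 + R) ^ d) :
    ∃ d : ℕ, ∀ S : Set Γ, S.Finite → ∃ C : ℕ, ∀ n : ℕ, (S ^ n).ncard ≤ C * (n + 1) ^ d := by
  classical
  obtain ⟨d, B, hB, h⟩ := h
  refine ⟨d, fun S hS => ?_⟩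
  obtain ⟨c0, hc0⟩ := (hS.image (fun s : Γ => dist x0 (s • x0))).bddAbove
  set c := max c0 0 with hc
  have hc00 : 0 ≤ c := le_max_right _ _
  have hs : ∀ s ∈ S, dist x0 (s • x0) ≤ c := fun s hs =>
    (hc0 (mem_image_of_mem _ hs)).trans (le_max_left _ _)
  have hfin : ∀ n : ℕ, (S ^ n).Finite := by
    intro n
    induction n with
    | zero => rw [pow_zero]; exact Set.finite_one
    | succ n ih => rw [pow_succ]; exact ih.mul hS
  have hd : ∀ n : ℕ, ∀ g ∈ S ^ n, dist x0 (g • x0) ≤ n * c := by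
    intro n
    induction n with
    | zero =>
      intro g hg
      rw [pow_zero, Set.mem_one] at hg
      rw [hg, one_smul, dist_self]; simp
    | succ n ih =>
      intro g hg
      rw [pow_succ] at hg
      obtain ⟨a, ha, b, hb, rfl⟩ := Set.mem_mul.mp hg
      have h1 := ih a ha
      have h2 := hs b hb
      have h3 := dist_triangle x0 (a • x0) ((a * b) • x0)
      rw [mul_smul, dist_smul] at h3
      rw [mul_smul]
      push_cast
      linarith
  refine ⟨⌈B * (1 + c) ^ d⌉₊, fun n => ?_⟩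
  set Z : Finset X := (hfin n).toFinset.image (fun g : Γ => g • x0) with hZ
  have hcard : Z.card = (S ^ n).ncard := by
    rw [hZ, Finset.card_image_of_injective, Set.ncard_eq_toFinset_card _ (hfin n)]
    intro a b hab
    apply hinj
    have : a • x0 = b • x0 := hab
    rw [this, dist_self]; exact hr0
  have h1 := h x0 Z (n * c) (by positivity) (fun z hz => by
    obtain ⟨g, hg, rfl⟩ := Finset.mem_image.mp hz
    exact hd n g ((hfin n).mem_toFinset.mp hg)) (fun z hz z' hz' hzz => by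
    obtain ⟨g, hg, rfl⟩ := Finset.mem_image.mp hz
    obtain ⟨g', hg', rfl⟩ := Finset.mem_image.mp hz'
    rw [hinj g g' hzz])
  rw [hcard] at h1
  have h2 : (1 + (n : ℝ) * c) ^ d ≤ ((1 + c) * (n + 1)) ^ d := by
    apply pow_le_pow_left₀ (by positivity)
    nlinarith [(Nat.cast_nonneg n : (0 : ℝ) ≤ n)]
  have h3 : ((S ^ n).ncard : ℝ) ≤ (⌈B * (1 + c) ^ d⌉₊ : ℕ) * ((n : ℝ) + 1) ^ d := by
    refine h1.trans ((mul_le_mul_of_nonneg_left h2 hB).trans ?_)
    rw [mul_pow, ← mul_assoc]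
    exact mul_le_mul_of_nonneg_right (Nat.le_ceil _) (by positivity)
  exact_mod_cast h3

variable {E : Type*} [NormedAddCommGroup E] [NormedSpace ℝ E] [FiniteDimensional ℝ E]
  {M : Type*} [TopologicalSpace M] [T2Space M] [CompactSpace M] [ConnectedSpace M]
  [ChartedSpace E M] [IsManifold 𝓘(ℝ, E) ∞ M]
  {X : Type*} [MetricSpace X] [ProperSpace X] [ConnectedSpace X]
  {Γ : Type*} [Group Γ] [MulAction Γ X] [IsIsometricSMul Γ X] [FaithfulSMul Γ X]

/-- polynomial growth of the deck group -/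
def PolyGrowth (Γ : Type*) [Group Γ] : Prop :=
  ∃ d : ℕ, ∀ S : Set Γ, S.Finite → ∃ C : ℕ, ∀ n : ℕ, (S ^ n).ncard ≤ C * (n + 1) ^ d

theorem CoB.iter {F : X → X} (h : CoB F) (n : ℕ) : CoB (F^[n]) := by
  induction n with
  | zero => intro c; exact ⟨c, fun x y hxy => hxy⟩
  | succ n ih =>
    intro c
    obtain ⟨D, hD⟩ := h c
    obtain ⟨D', hD'⟩ := ih D
    refine ⟨D', fun x y hxy => ?_⟩
    rw [Function.iterate_succ_apply, Function.iterate_succ_apply]
    exact hD' _ _ (hD _ _ hxy)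

theorem SC.iter {F : X → X} (hu : UCont F) (h : SC F) {N : ℕ} (hN : 1 ≤ N) : SC (F^[N]) := by
  intro K δ hδ
  obtain ⟨m, hm⟩ := h K δ hδ
  refine ⟨m, fun x y hxy hd n hn => ?_⟩
  have h1 : Asymp F x y := as_of_iter hu hN hxy
  rw [← Function.iterate_mul]
  exact hm x y h1 hd _ (hn.trans (Nat.le_mul_of_pos_left n hN))

theorem man_growth (f : Diffeomorph 𝓘(ℝ, E) 𝓘(ℝ, E) M M 1)
    (Es Eu : ∀ x : M, Submodule ℝ (TangentSpace 𝓘(ℝ, E) x)) (hA : IsAnosov f Es Eu)
    (P : X → M) (hP : IsCoveringMap P) (hs : Function.Surjective P)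
    (hΓ : ∀ x y, P x = P y ↔ ∃ γ : Γ, γ • x = y) (F : X ≃ₜ X) (hF : ∀ x, P (F x) = f (P x))
    (hGP : ∀ x y, ∃! w, Asymp F x w ∧ Asymp F.symm y w) {N : ℕ} (hN : 1 ≤ N) {μ ν : ℝ}
    (hμ : 1 < μ) (hν : 1 < ν) (hLu : LogContracts (F.symm^[N]) μ) (hLs : LogContracts (F^[N]) ν)
    (hPB : PolyBrackets F) : PolyGrowth Γ := by
  obtain ⟨hBG, hCB, hCB', hSC, hSC'⟩ := man_geo f Es Eu hA P hP hs hΓ F hF hGP
  have hbb := ((man_bb f Es Eu hA P hP hs hΓ F hF).2 hGP).1
  obtain ⟨K, hK, hKΓ⟩ : ∃ K : Set X, IsCompact K ∧ ∀ x, ∃ γ : Γ, γ • x ∈ K := by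
    obtain ⟨m, e, he, hemb, hinj⟩ := exists_embedding_euclidean_of_compact (I := 𝓘(ℝ, E)) (M := M)
    let _ : MetricSpace M := hemb.isEmbedding.comapMetricSpace e
    exact exists_K (Γ := Γ) hP hs hΓ
  obtain ⟨r0, hr0, hinj⟩ : ∃ r > 0, ∀ x y : X, dist x y < r → P x = P y → x = y := by
    obtain ⟨m, e, he, hemb, hinj⟩ := exists_embedding_euclidean_of_compact (I := 𝓘(ℝ, E)) (M := M)
    let _ : MetricSpace M := hemb.isEmbedding.comapMetricSpace e
    exact exists_inj (Γ := Γ) hP hΓ hK hKΓ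
  have hu : UCont F := by
    obtain ⟨m, e, he, hemb, hinj⟩ := exists_embedding_euclidean_of_compact (I := 𝓘(ℝ, E)) (M := M)
    let _ : MetricSpace M := hemb.isEmbedding.comapMetricSpace e
    exact lift_ucont (Γ := Γ) hP hΓ hK hKΓ (f := f) F.continuous hF
  have hF' : ∀ x, P (F.symm x) = f.symm (P x) := by
    intro x
    apply f.injective
    show f (P (F.symm x)) = f (f.symm (P x))
    rw [← hF, Homeomorph.apply_symm_apply]
    exact (f.apply_symm_apply _).symm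
  have hu' : UCont F.symm := by
    obtain ⟨m, e, he, hemb, hinj⟩ := exists_embedding_euclidean_of_compact (I := 𝓘(ℝ, E)) (M := M)
    let _ : MetricSpace M := hemb.isEmbedding.comapMetricSpace e
    exact lift_ucont (Γ := Γ) hP hΓ hK hKΓ (f := f.symm) F.symm.continuous hF'
  have hfree : ∀ (γ : Γ) (x : X), γ • x = x → γ = 1 := by
    obtain ⟨m, e, he, hemb, hinj⟩ := exists_embedding_euclidean_of_compact (I := 𝓘(ℝ, E)) (M := M)
    let _ : MetricSpace M := hemb.isEmbedding.comapMetricSpace e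
    exact fun γ x h => Pool.Agent.H223.CC.free_of_faithful hP hΓ h
  set G : X ≃ₜ X := iterHomeo F N with hGdef
  have as1 : ∀ x y, Asymp G x y → Asymp F x y := fun x y h => as_of_iter hu hN h
  have as2 : ∀ x y, Asymp G.symm x y → Asymp F.symm x y := fun x y h => as_of_iter hu' hN h
  have as1' : ∀ x y, Asymp F x y → Asymp G x y := fun x y h => iter_of_as hN h
  have as2' : ∀ x y, Asymp F.symm x y → Asymp G.symm x y := fun x y h => iter_of_as hN h
  obtain ⟨x0⟩ : Nonempty X := inferInstance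
  refine group_growth x0 (r0 := r0) (fun g h hgh => ?_) hr0
    (packing (F := G) (μ := μ) (ν := ν) hBG (hCB.iter N) (hCB'.iter N) ?_ ?_ hμ hν hLu hLs
      (SC.iter hu' hSC' hN) (SC.iter hu hSC hN) ?_ r0 hr0)
  · have h1 := hinj _ _ hgh ((hΓ _ _).mpr ⟨h * g⁻¹, by rw [← mul_smul, inv_mul_cancel_right]⟩)
    have h2 : (h⁻¹ * g) • x0 = x0 := by rw [mul_smul, h1, inv_smul_smul]
    have h3 := hfree _ _ h2
    exact (inv_mul_eq_one.mp h3).symm
  · intro x y
    obtain ⟨w, ⟨hw1, hw2⟩, -⟩ := hGP x y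
    exact ⟨w, as1' _ _ hw1, as2' _ _ hw2⟩
  · intro c
    obtain ⟨D, hD⟩ := hbb c
    exact ⟨D, fun x y w h h1 h2 => hD x y w h (as1 _ _ h1) (as2 _ _ h2)⟩
  · obtain ⟨A, k, hk, h⟩ := hPB
    exact ⟨A, k, hk, fun x y w h1 h2 => h x y w (as1 _ _ h1) (as2 _ _ h2)⟩

theorem polyBrackets_symm {X : Type*} [MetricSpace X] {F : X ≃ₜ X} (h : PolyBrackets F.symm) :
    PolyBrackets F := by
  obtain ⟨A, k, hk, h⟩ := h
  refine ⟨A, k + 1, by linarith, fun x y w h1 h2 => ?_⟩
  have h3 : Real.log (1 + dist x w) ≤ A + k * Real.log (1 + dist y x) := h y x w h2 h1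
  rw [dist_comm y x] at h3
  have d1 : 0 ≤ dist x y := dist_nonneg
  have d2 : 0 ≤ dist x w := dist_nonneg
  have d3 : 0 ≤ dist y w := dist_nonneg
  have h4 : 1 + dist y w ≤ (1 + dist x y) * (1 + dist x w) := by
    have := dist_triangle y x w
    rw [dist_comm y x] at this
    nlinarith
  have h5 := Real.log_le_log (by linarith) h4
  rw [Real.log_mul (by linarith) (by linarith)] at h5
  linarith

end Pool.Agent.H223.PG
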