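import Pool.Agent.H223.PG.PDef
import Pool.Agent.H223.PG.Count
import Pool.Agent.H223.CE.Conv

set_option autoImplicit false
set_option linter.unusedSectionVars false

open Filter Topology

namespace Pool.Agent.H223.PG

open Pool.Agent.H223.CE Pool.Agent.H721R2 Pool.Agent.H721R2.CSys

variable {X : Type*} [MetricSpace X]

/-- large unstable distances are expanded -/
theorem unst {G : X ≃ₜ X} {μ ν C : ℝ} (hμ : 1 < μ) (hν : 1 < ν) (hC : 1 ≤ C)
    (hCH : ∀ x y, C ≤ dist x y → μ * dist x y ≤ dist (G x) (G y) ∨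
      ν * dist x y ≤ dist (G.symm x) (G.symm y)) {a b : X} (h : Asymp G.symm a b)
    (hab : C ≤ dist a b) : μ * dist a b ≤ dist (G a) (G b) := by
  rcases hCH a b hab with h0 | h0
  · exact h0
  exfalso
  have key : ∀ j : ℕ, C ≤ dist (G.symm^[j] a) (G.symm^[j] b) ∧
      ν * dist (G.symm^[j] a) (G.symm^[j] b) ≤ dist (G.symm^[j + 1] a) (G.symm^[j + 1] b) := by
    intro j
    induction j with
    | zero => exact ⟨hab, h0⟩
    | succ j ih =>
      obtain ⟨h1, h2⟩ := ih
      have h3 : C ≤ dist (G.symm^[j + 1] a) (G.symm^[j + 1] b) := by nlinarith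
      refine ⟨h3, ?_⟩
      rcases hCH _ _ h3 with h4 | h4
      · exfalso
        have e : ∀ v : X, G (G.symm^[j + 1] v) = G.symm^[j] v := by
          intro v
          rw [Function.iterate_succ_apply', Homeomorph.apply_symm_apply]
        rw [e, e] at h4
        nlinarith
      · rw [Function.iterate_succ_apply' G.symm (j + 1), Function.iterate_succ_apply' G.symm (j + 1)]
        exact h4
  obtain ⟨j, hj⟩ := eventually_atTop.mp ((tendsto_order.mp h).2 1 one_pos)
  have h1 := hj j le_rfl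
  have h2 := (key j).1
  linarith

theorem unst_iter {G : X ≃ₜ X} {μ ν C : ℝ} (hμ : 1 < μ) (hν : 1 < ν) (hC : 1 ≤ C)
    (hCH : ∀ x y, C ≤ dist x y → μ * dist x y ≤ dist (G x) (G y) ∨
      ν * dist x y ≤ dist (G.symm x) (G.symm y)) {a b : X} (h : Asymp G.symm a b)
    (hab : C ≤ dist a b) (n : ℕ) : μ ^ n * dist a b ≤ dist (G^[n] a) (G^[n] b) := by
  induction n with
  | zero => simp
  | succ n ih =>
    have h1 : Asymp G.symm (G^[n] a) (G^[n] b) := as_symm_iter G.toEquiv h n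
    have h2 : dist a b ≤ μ ^ n * dist a b :=
      le_mul_of_one_le_left dist_nonneg (one_le_pow₀ hμ.le)
    have h3 := unst hμ hν hC hCH h1 (by linarith)
    rw [Function.iterate_succ_apply', Function.iterate_succ_apply', pow_succ]
    nlinarith

theorem logContracts_of_ch {G : X ≃ₜ X} {μ ν C : ℝ} (hμ : 1 < μ) (hν : 1 < ν) (hC : 1 ≤ C)
    (hCH : ∀ x y, C ≤ dist x y → μ * dist x y ≤ dist (G x) (G y) ∨
      ν * dist x y ≤ dist (G.symm x) (G.symm y)) : LogContracts G.symm μ := by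
  refine ⟨C, fun x y hxy n hn => ?_⟩
  by_contra hcon
  have hcon := not_le.mp hcon
  have h1 : Asymp G.symm (G.symm^[n] x) (G.symm^[n] y) := As.iter hxy n
  have h2 := unst_iter hμ hν hC hCH h1 hcon.le n
  rw [show G^[n] (G.symm^[n] x) = x from eq_iter_symm_iter G.toEquiv n x,
    show G^[n] (G.symm^[n] y) = y from eq_iter_symm_iter G.toEquiv n y] at h2
  have h3 : 0 ≤ dist x y := dist_nonneg
  have h4 : 1 + dist x y ≤ μ ^ n := by nlinarith
  nlinarith

theorem growsAtMost_of_lip {G : X → X} {Λ C : ℝ} (hΛ : 1 < Λ) (hC : 0 ≤ C)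
    (hL : ∀ x y, dist (G x) (G y) ≤ Λ * dist x y + C) : GrowsAtMost G Λ := by
  have h1 : 0 < Λ - 1 := by linarith
  have key : ∀ (x y : X) (n : ℕ), dist (G^[n] x) (G^[n] y) + C / (Λ - 1) ≤
      Λ ^ n * (dist x y + C / (Λ - 1)) := by
    intro x y n
    induction n with
    | zero => simp
    | succ n ih =>
      rw [Function.iterate_succ_apply', Function.iterate_succ_apply', pow_succ]
      have h2 := hL (G^[n] x) (G^[n] y)
      have h3 : C / (Λ - 1) * (Λ - 1) = C := div_mul_cancel₀ _ h1.ne'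
      have h4 : Λ * (dist (G^[n] x) (G^[n] y) + C / (Λ - 1)) ≤
          Λ * (Λ ^ n * (dist x y + C / (Λ - 1))) := mul_le_mul_of_nonneg_left ih (by linarith)
      nlinarith
  refine ⟨max 1 (C / (Λ - 1)), fun x y n => ?_⟩
  have h2 : 0 ≤ C / (Λ - 1) := by positivity
  have h3 : 0 < Λ ^ n := by positivity
  have h4 : dist x y + C / (Λ - 1) ≤ max 1 (C / (Λ - 1)) * (1 + dist x y) := by
    have := le_max_left 1 (C / (Λ - 1))
    have := le_max_right 1 (C / (Λ - 1))
    have : 0 ≤ dist x y := dist_nonneg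
    nlinarith
  have h5 := mul_le_mul_of_nonneg_left h4 h3.le
  have h6 := key x y n
  nlinarith

/-- **Polynomial brackets from linear expansion.** -/
theorem lin_poly {G : X ≃ₜ X} {μ ν Λ Λ' C : ℝ} (hμ : 1 < μ) (hν : 1 < ν) (hΛ : μ ≤ Λ)
    (hΛ' : 1 < Λ') (hC : 1 ≤ C)
    (hCH : ∀ x y, C ≤ dist x y → μ * dist x y ≤ dist (G x) (G y) ∨
      ν * dist x y ≤ dist (G.symm x) (G.symm y))
    (hL : ∀ x y, dist (G x) (G y) ≤ Λ * dist x y + C)
    (hL' : ∀ x y, dist (G.symm x) (G.symm y) ≤ Λ' * dist x y + C)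
    (hp : (Real.log Λ - Real.log μ) * Real.log Λ' <
      (Real.log Λ + Real.log Λ') * Real.log ν) : PolyBrackets G := by
  have hΛ1 : 1 < Λ := lt_of_lt_of_le hμ hΛ
  obtain ⟨Cs, hCs⟩ : LogContracts G ν :=
    logContracts_of_ch (G := G.symm) hν hμ hC (fun x y h => (hCH x y h).symm)
  obtain ⟨CL, hCL⟩ := growsAtMost_of_lip hΛ1 (by linarith : (0 : ℝ) ≤ C) hL
  obtain ⟨CM, hCM⟩ := growsAtMost_of_lip hΛ' (by linarith : (0 : ℝ) ≤ C) hL'
  have hCn := @unst_iter X _ G μ ν C hμ hν hC hCH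
  set B := max C (max Cs (max CL CM)) with hB
  have hB1 : C ≤ B := le_max_left _ _
  have hB2 : Cs ≤ B := (le_max_left _ _).trans (le_max_right _ _)
  have hB3 : CL ≤ B := (le_max_left _ _).trans ((le_max_right _ _).trans (le_max_right _ _))
  have hB4 : CM ≤ B := (le_max_right _ _).trans ((le_max_right _ _).trans (le_max_right _ _))
  have hB0 : 1 ≤ B := hC.trans hB1
  set lx := Real.log μ with hlx
  set ly := Real.log ν with hly
  set lz := Real.log Λ with hlz
  set lt := Real.log Λ' with hlt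
  have hx0 : 0 < lx := Real.log_pos hμ
  have hy0 : 0 < ly := Real.log_pos hν
  have hz0 : 0 < lz := Real.log_pos hΛ1
  have ht0 : 0 < lt := Real.log_pos hΛ'
  have hxz : lx ≤ lz := Real.log_le_log (by linarith) hΛ
  have hΛ0 : 0 < Λ := by linarith
  have hΛ'0 : 0 < Λ' := by linarith
  have hμ0 : 0 < μ := by linarith
  have hν0 : 0 < ν := by linarith
  set q := (lz - lx) * lt / ((lz + lt) * ly) with hq
  have hq0 : 0 ≤ q := div_nonneg (mul_nonneg (by linarith) ht0.le) (by positivity)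
  have hq1 : q < 1 := by
    rw [hq, div_lt_one (by positivity)]; exact hp
  have h1q : 0 < 1 - q := by linarith
  have c1 : 0 ≤ Real.log (8 * B ^ 2) := Real.log_nonneg (by nlinarith)
  have c3 : 0 ≤ Real.log (ν * B) := Real.log_nonneg (by nlinarith)
  refine ⟨(Real.log (8 * B ^ 2) + (lz - lx) + q * Real.log (ν * B)) / (1 - q), (1 + q) / (1 - q),
    by positivity, fun x y w hxw hyw => ?_⟩
  have hR : 0 ≤ dist x y := dist_nonneg
  have hS : 0 ≤ dist x w := dist_nonneg
  have hU : 0 ≤ dist y w := dist_nonneg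
  have hSU : dist x w ≤ dist x y + dist y w := dist_triangle _ _ _
  obtain ⟨τ, hτ1, hτ2⟩ : ∃ n : ℕ, B * (1 + dist x w) ≤ ν ^ n ∧ ν ^ n ≤ ν * (B * (1 + dist x w)) := by
    obtain ⟨n, h1, h2⟩ := exists_nat_pow_near (by nlinarith : 1 ≤ B * (1 + dist x w)) hν
    refine ⟨n + 1, h2.le, ?_⟩
    rw [pow_succ, mul_comm]
    exact mul_le_mul_of_nonneg_left h1 (by linarith)
  have f1 : dist (G^[τ] x) (G^[τ] w) ≤ B := by
    refine (hCs x w hxw τ (le_trans ?_ hτ1)).trans hB2
    exact mul_le_mul_of_nonneg_right hB2 (by linarith)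
  obtain ⟨n, hnτ, hn1, hn2⟩ : ∃ n ≤ τ, Λ' ^ (τ - n) ≤ Λ ^ n ∧
      (n : ℝ) * (lz + lt) ≤ (lz + lt) + τ * lt := by
    classical
    have hex : ∃ n, n ≤ τ ∧ Λ' ^ (τ - n) ≤ Λ ^ n := ⟨τ, le_rfl, by
      rw [Nat.sub_self, pow_zero]; exact one_le_pow₀ hΛ1.le⟩
    obtain ⟨h1, h2⟩ := Nat.find_spec hex
    refine ⟨Nat.find hex, h1, h2, ?_⟩
    rcases Nat.eq_zero_or_pos (Nat.find hex) with h3 | h3
    · rw [h3]
      have : (0 : ℝ) ≤ τ * lt := by positivity
      push_cast
      linarith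
    · have h4 := Nat.find_min hex (show Nat.find hex - 1 < Nat.find hex by omega)
      set n := Nat.find hex with hn
      have h5 : Λ ^ (n - 1) < Λ' ^ (τ - (n - 1)) := by
        by_contra hcon
        exact h4 ⟨by omega, not_lt.mp hcon⟩
      have h6 := Real.log_lt_log (by positivity) h5
      rw [Real.log_pow, Real.log_pow, ← hlz, ← hlt, Nat.cast_sub (by omega : n - 1 ≤ τ),
        Nat.cast_sub (by omega : 1 ≤ n)] at h6
      push_cast at h6
      nlinarith
  have f2 : dist (G^[n] x) (G^[n] y) ≤ B * Λ ^ n * (1 + dist x y) := by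
    refine (hCL x y n).trans ?_
    have : 0 ≤ Λ ^ n := by positivity
    exact mul_le_mul_of_nonneg_right (mul_le_mul_of_nonneg_right hB3 this) (by linarith)
  have f1' : dist (G^[n] x) (G^[n] w) ≤ 2 * B ^ 2 * Λ ^ n := by
    have e : ∀ v : X, G.symm^[τ - n] (G^[τ] v) = G^[n] v := by
      intro v
      conv_lhs => rw [show τ = (τ - n) + n by omega, Function.iterate_add_apply]
      rw [show τ - n + n - n = τ - n by omega]
      exact eq_symm_iter_iter G.toEquiv (τ - n) _
    have h1 := hCM (G^[τ] x) (G^[τ] w) (τ - n)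
    rw [e, e] at h1
    refine h1.trans ?_
    have h6 : 0 < Λ' ^ (τ - n) := by positivity
    have h7 : CM * Λ' ^ (τ - n) ≤ B * Λ' ^ (τ - n) := mul_le_mul_of_nonneg_right hB4 h6.le
    have h8 : 0 ≤ dist (G^[τ] x) (G^[τ] w) := dist_nonneg
    have h9 : 1 + dist (G^[τ] x) (G^[τ] w) ≤ 2 * B := by linarith
    have h10 : 0 ≤ B * Λ' ^ (τ - n) := by positivity
    calc CM * Λ' ^ (τ - n) * (1 + dist (G^[τ] x) (G^[τ] w))
        ≤ B * Λ' ^ (τ - n) * (1 + dist (G^[τ] x) (G^[τ] w)) :=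
          mul_le_mul_of_nonneg_right h7 (by linarith)
      _ ≤ B * Λ' ^ (τ - n) * (2 * B) := mul_le_mul_of_nonneg_left h9 h10
      _ = 2 * B ^ 2 * Λ' ^ (τ - n) := by ring
      _ ≤ 2 * B ^ 2 * Λ ^ n := mul_le_mul_of_nonneg_left hn1 (by positivity)
  have hΛn : 1 ≤ Λ ^ n := one_le_pow₀ hΛ1.le
  have hBB : B ≤ B ^ 2 := by nlinarith
  have f3 : dist (G^[n] y) (G^[n] w) ≤ 4 * B ^ 2 * Λ ^ n * (1 + dist x y) := by
    have h1 := dist_triangle (G^[n] y) (G^[n] x) (G^[n] w)
    rw [dist_comm (G^[n] y) (G^[n] x)] at h1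
    have h2 : B * Λ ^ n * (1 + dist x y) ≤ B ^ 2 * Λ ^ n * (1 + dist x y) :=
      mul_le_mul_of_nonneg_right (mul_le_mul_of_nonneg_right hBB (by linarith)) (by linarith)
    have h3 : B ^ 2 * Λ ^ n ≤ B ^ 2 * Λ ^ n * (1 + dist x y) :=
      le_mul_of_one_le_right (by positivity) (by linarith)
    have h4 : 0 ≤ B ^ 2 * Λ ^ n := by positivity
    linarith
  set ρ := Real.log (1 + dist x y) with hρ
  set u := Real.log (1 + dist y w) with hu
  have hρ0 : 0 ≤ ρ := Real.log_nonneg (by linarith)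
  have hu0 : 0 ≤ u := Real.log_nonneg (by linarith)
  -- `τ y ≤ c₃ + ρ + u`
  have e1 : (τ : ℝ) * ly ≤ Real.log (ν * B) + ρ + u := by
    have h1 : 1 + dist x w ≤ (1 + dist x y) * (1 + dist y w) := by nlinarith [mul_nonneg hR hU]
    have h2 : ν ^ τ ≤ (ν * B) * ((1 + dist x y) * (1 + dist y w)) := by
      refine hτ2.trans ?_
      have : ν * (B * (1 + dist x w)) = (ν * B) * (1 + dist x w) := by ring
      rw [this]
      exact mul_le_mul_of_nonneg_left h1 (by positivity)
    have h3 := Real.log_le_log (by positivity) h2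
    rw [Real.log_pow, Real.log_mul (x := ν * B) (by positivity) (by positivity),
      Real.log_mul (x := 1 + dist x y) (by positivity) (by positivity)] at h3
    linarith
  have e3 : (n : ℝ) * (lz - lx) ≤ (lz - lx) + q * (τ * ly) := by
    have h1 : q * (τ * ly) = (lz - lx) * (τ * lt) / (lz + lt) := by
      rw [hq]; field_simp
    have h2 : (n : ℝ) ≤ 1 + τ * lt / (lz + lt) := by
      have h3 : (1 : ℝ) + τ * lt / (lz + lt) = ((lz + lt) + τ * lt) / (lz + lt) := by field_simp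
      rw [h3, le_div_iff₀ (by positivity)]
      exact hn2
    rw [h1]
    have h4 := mul_le_mul_of_nonneg_right h2 (by linarith : 0 ≤ lz - lx)
    have h5 : (1 + τ * lt / (lz + lt)) * (lz - lx) = (lz - lx) + (lz - lx) * (τ * lt) / (lz + lt) := by
      ring
    linarith
  have e4 : u ≤ Real.log (8 * B ^ 2) + n * (lz - lx) + ρ := by
    have hr1 : 1 ≤ (Λ / μ) ^ n := one_le_pow₀ ((one_le_div hμ0).mpr hΛ)
    have h1 : 1 + dist y w ≤ (8 * B ^ 2) * (Λ / μ) ^ n * (1 + dist x y) := by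
      rcases le_or_gt C (dist y w) with h | h
      · have h2 := hCn hyw h n
        have h3 : dist y w ≤ 4 * B ^ 2 * (Λ / μ) ^ n * (1 + dist x y) := by
          rw [div_pow, mul_div_assoc', div_mul_eq_mul_div, le_div_iff₀ (by positivity)]
          linarith
        nlinarith [mul_le_mul hr1 (by linarith : (1 : ℝ) ≤ 1 + dist x y) zero_le_one
          (by positivity : (0 : ℝ) ≤ (Λ / μ) ^ n)]
      · have h2 : 1 + dist y w ≤ 2 * B ^ 2 := by nlinarith
        have h3 : 2 * B ^ 2 ≤ (8 * B ^ 2) * ((Λ / μ) ^ n * (1 + dist x y)) := by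
          have h4 : 1 ≤ (Λ / μ) ^ n * (1 + dist x y) := by nlinarith
          nlinarith
        nlinarith
    have h2 := Real.log_le_log (by linarith) h1
    rw [Real.log_mul (by positivity) (by positivity), Real.log_mul (by positivity) (by positivity),
      Real.log_pow, Real.log_div (by positivity) (by positivity), ← hlz, ← hlx] at h2
    exact h2
  have e5 := mul_le_mul_of_nonneg_left e1 hq0
  have h9 : (Real.log (8 * B ^ 2) + (lz - lx) + q * Real.log (ν * B)) / (1 - q) +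
      (1 + q) / (1 - q) * ρ =
      ((Real.log (8 * B ^ 2) + (lz - lx) + q * Real.log (ν * B)) + (1 + q) * ρ) / (1 - q) := by
    ring
  rw [h9, le_div_iff₀ h1q]
  linarith

end Pool.Agent.H223.PG
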