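import Pool.Agent.H223.CE.Def

set_option autoImplicit false

open Filter Topology

namespace Pool.Agent.H223.PG

open Pool.Agent.H223.CE

variable {X : Type*} [MetricSpace X]

/-- Large-scale contraction in logarithmic time: for some `C`, two points that are forward asymptotic
under `F` are at distance at most `C` after `n` iterates if `μⁿ ≥ C (1 + d(x, y))`. -/
def LogContracts (F : X → X) (μ : ℝ) : Prop :=
  ∃ C : ℝ, ∀ x y : X, Asymp F x y → ∀ n : ℕ, C * (1 + dist x y) ≤ μ ^ n →
    dist (F^[n] x) (F^[n] y) ≤ C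

/-- For some `C`, the iterate `Fⁿ` increases large distances at most by the factor `C Λⁿ`. -/
def GrowsAtMost (F : X → X) (Λ : ℝ) : Prop :=
  ∃ C : ℝ, ∀ (x y : X) (n : ℕ), dist (F^[n] x) (F^[n] y) ≤ C * Λ ^ n * (1 + dist x y)

/-- Pinching: at large scale the unstable leaves are contracted by `F⁻¹` at least at the rate `μ`
and the stable leaves by `F` at least at the rate `ν`, both in logarithmic time, `F` and `F⁻¹` expand
distances at most at the rates `Λ` and `Λ'`, and
`log Λ / log μ < 1 + log ν / log Λ' + log ν / log Λ`. -/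
def Pinched (F : X ≃ₜ X) : Prop :=
  ∃ μ ν Λ Λ' : ℝ, 1 < μ ∧ 1 < ν ∧ 1 < Λ ∧ 1 < Λ' ∧ LogContracts F.symm μ ∧ LogContracts F ν ∧
    GrowsAtMost F Λ ∧ GrowsAtMost F.symm Λ' ∧
    Real.log Λ / Real.log μ < 1 + Real.log ν / Real.log Λ' + Real.log ν / Real.log Λ

/-- The brackets of points at bounded distance are at bounded distance: for every `c` there is `D`
such that `d(x, w) ≤ D` whenever `d(x, y) ≤ c` and `w` is on the stable leaf of `x` and on the
unstable leaf of `y`. -/
def BoundedBrackets (F : X ≃ₜ X) : Prop :=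
  ∀ c : ℝ, ∃ D : ℝ, ∀ x y w : X, dist x y ≤ c → Asymp F x w → Asymp F.symm y w → dist x w ≤ D

end Pool.Agent.H223.PG
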