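import Pool.Agent.H223.PG.Swap2
import Pool.Agent.H223.PG.PDef
import Pool.Agent.H223.CE.Man3

set_option autoImplicit false
set_option linter.unusedSectionVars false

open scoped Manifold ContDiff Topology
open Set Filter

namespace Pool.Agent.H223.PG

open Pool.Agent.H721R2 Pool.Agent.H789R2.AN Pool.Agent.H721R2.CSys
open Pool.Agent.H223.CE

variable {E : Type*} [NormedAddCommGroup E] [NormedSpace ℝ E] [FiniteDimensional ℝ E]
  {M : Type*} [TopologicalSpace M] [T2Space M] [CompactSpace M] [ConnectedSpace M]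
  [ChartedSpace E M] [IsManifold 𝓘(ℝ, E) ∞ M]
  {X : Type*} [MetricSpace X] [ProperSpace X] [ConnectedSpace X]
  {Γ : Type*} [Group Γ] [MulAction Γ X] [IsIsometricSMul Γ X]

theorem man_bb (f : Diffeomorph 𝓘(ℝ, E) 𝓘(ℝ, E) M M 1)
    (Es Eu : ∀ x : M, Submodule ℝ (TangentSpace 𝓘(ℝ, E) x)) (hA : IsAnosov f Es Eu)
    (P : X → M) (hP : IsCoveringMap P) (hs : Function.Surjective P)
    (hΓ : ∀ x y, P x = P y ↔ ∃ γ : Γ, γ • x = y) (F : X ≃ₜ X) (hF : ∀ x, P (F x) = f (P x)) :
    ((∀ x y, Asymp F x y → Asymp F.symm x y → x = y) → BoundedBrackets F →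
      TopTransitive f ∧ ∀ x y, ∃! w, Asymp F x w ∧ Asymp F.symm y w) ∧
    ((∀ x y, ∃! w, Asymp F x w ∧ Asymp F.symm y w) → BoundedBrackets F ∧
      ∃ br : X → X → X, Continuous (fun p : X × X => br p.1 p.2) ∧
        ∀ x y, Asymp F x (br x y) ∧ Asymp F.symm y (br x y)) := by
  obtain ⟨m, e, he, hemb, hinj⟩ := exists_embedding_euclidean_of_compact (I := 𝓘(ℝ, E)) (M := M)
  let _ : MetricSpace M := hemb.isEmbedding.comapMetricSpace e
  have hiso : ∀ x y : M, dist x y = ‖e x - e y‖ := fun x y => dist_eq_norm (e x) (e y)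
  have he1 : ContMDiff 𝓘(ℝ, E) (𝓡 m) 1 e := he.of_le (by simp)
  obtain ⟨N, S, -, hN, hg⟩ := exists_sys_mul hiso he1 hinj f Es Eu hA 1 le_rfl
  obtain ⟨c, hL⟩ := exists_LP S
  obtain ⟨K, hK, hKΓ⟩ := exists_K (Γ := Γ) hP hs hΓ
  obtain ⟨r, ρ, H⟩ := exists_sheets (Γ := Γ) hP hΓ hK hKΓ
  have hF' : ∀ x, P (F.symm x) = f.symm (P x) := by
    intro x
    apply f.injective
    show f (P (F.symm x)) = f (f.symm (P x))
    rw [← hF, Homeomorph.apply_symm_apply]
    exact (f.apply_symm_apply _).symm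
  have hu : UCont F := lift_ucont (Γ := Γ) hP hΓ hK hKΓ (f := f) F.continuous hF
  have hu' : UCont F.symm :=
    lift_ucont (Γ := Γ) hP hΓ hK hKΓ (f := f.symm) F.symm.continuous hF'
  have hno1 : ∀ γ : Γ, ∃ γ' : Γ, ∀ x, F (γ • x) = γ' • F x :=
    lift_normal hP hΓ (f := f) F.continuous hF
  have hno2 : ∀ γ : Γ, ∃ γ' : Γ, ∀ x, F.symm (γ • x) = γ' • F.symm x :=
    lift_normal hP hΓ (f := f.symm) F.symm.continuous hF'
  have hBG : BGeom X := bgeom (Γ := Γ) hK hKΓ
  set G : X ≃ X := (iterHomeo F N).toEquiv with hGdef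
  have hGf : ∀ x, G x = F^[N] x := fun _ => rfl
  have hG : ∀ x, P (G x) = S.g (P x) := by
    intro x
    have h1 : ∀ (k : ℕ) (x : X), P (F^[k] x) = f^[k] (P x) := by
      intro k
      induction k with
      | zero => intro x; rfl
      | succ k ih => intro x; rw [Function.iterate_succ_apply, Function.iterate_succ_apply, ih, hF]
    rw [hg, hGf, h1]; rfl
  have huG : UCont G := hu.iter N
  have huG' : UCont G.symm := hu'.iter N
  have as1 : ∀ x y, As G x y → As F x y := fun x y h => as_of_iter hu hN h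
  have as2 : ∀ x y, As G.symm x y → As F.symm x y := fun x y h => as_of_iter hu' hN h
  have as1' : ∀ x y, As F x y → As G x y := fun x y h => iter_of_as hN h
  have as2' : ∀ x y, As F.symm x y → As G.symm x y := fun x y h => iter_of_as hN h
  constructor
  · intro hU hbb
    have hbbG : BBr G := by
      intro c
      obtain ⟨D, hD⟩ := hbb c
      exact ⟨D, fun x y w hxy h1 h2 => hD x y w hxy (as1 _ _ h1) (as2 _ _ h2)⟩
    have hB : BPieces G := bp_of_unique S H hG huG huG' hBG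
        (fun x y h h' => hU x y (as1 _ _ h) (as2 _ _ h'))
    have htr : ∀ U V : Set M, IsOpen U → U.Nonempty → IsOpen V → V.Nonempty →
        ∃ n : ℕ, (S.g^[n] '' U ∩ V).Nonempty := transM hL (fun x y z hxy hxz =>
          swapM2 S H hs hG huG huG' hbbG hB x y z hxy hxz)
    refine ⟨?_, fun x y => ?_⟩
    · intro U V hUo hUn hVo hVn
      obtain ⟨k, hk⟩ := htr U V hUo hUn hVo hVn
      refine ⟨N * k, ?_⟩
      have h3 : S.g^[k] = f^[N * k] := by
        rw [Function.iterate_mul, hg]; rfl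
      rw [h3] at hk
      exact hk
    · obtain ⟨w, hw1, hw2⟩ := globalX2 S H hG huG huG' hbbG hB x y
      refine ⟨w, ⟨as1 _ _ hw1, as2 _ _ hw2⟩, ?_⟩
      rintro w' ⟨h3, h4⟩
      apply hU
      · exact (As.symm h3).trans (as1 _ _ hw1)
      · exact (As.symm h4).trans (as2 _ _ hw2)
  · intro hGP
    obtain ⟨T, hTg, -, -, hTρ, -⟩ := exists_lift S H hG huG huG' 0 1 one_pos
    choose br hbr using fun x y => (hGP x y).exists
    have huq : ∀ x y, Asymp F x y → Asymp F.symm x y → x = y := by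
      intro x y h1 h2
      obtain ⟨w, -, hw⟩ := hGP x x
      rw [hw x ⟨As.refl _ _, As.refl _ _⟩, hw y ⟨h1, h2⟩]
    have hbc : Continuous (fun p : X × X => br p.1 p.2) := by
      refine br_cont T hTg hTρ huG huG' br (fun a b => as1' _ _ (hbr a b).1)
        (fun a b => as2' _ _ (hbr a b).2) (fun a b w hw1 hw2 => ?_)
      exact huq _ _ ((As.symm (as1 _ _ hw1)).trans (hbr a b).1)
        ((As.symm (as2 _ _ hw2)).trans (hbr a b).2)
    refine ⟨fun c => ?_, br, hbc, hbr⟩
    have hKc : IsCompact (K ×ˢ Metric.cthickening c K) := hK.prod hK.cthickening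
    have hcont : Continuous (fun p : X × X => dist p.1 (br p.1 p.2)) :=
      continuous_fst.dist hbc
    obtain ⟨D, hD⟩ := (hKc.bddAbove_image hcont.continuousOn)
    refine ⟨D, fun x y w hxy h1 h2 => ?_⟩
    obtain ⟨γ, hγ⟩ := hKΓ x
    have h3 : Asymp F (γ • x) (γ • w) := by
      refine h1.congr fun n => ?_
      rw [inv_iter hno1]
    have h4 : Asymp F.symm (γ • y) (γ • w) := by
      refine h2.congr fun n => ?_
      rw [inv_iter hno2]
    have h5 : γ • w = br (γ • x) (γ • y) := huq _ _ ((As.symm h3).trans (hbr _ _).1)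
      ((As.symm h4).trans (hbr _ _).2)
    have h6 : (γ • x, γ • y) ∈ K ×ˢ Metric.cthickening c K := by
      refine ⟨hγ, Metric.mem_cthickening_of_dist_le (γ • y) (γ • x) c K hγ ?_⟩
      rw [dist_smul, dist_comm]; exact hxy
    have h7 := hD (mem_image_of_mem _ h6)
    have h8 : dist (γ • x) (br (γ • x) (γ • y)) ≤ D := h7
    rw [← h5, dist_smul] at h8
    exact h8

end Pool.Agent.H223.PG
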