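import Pool.Agent.H223.PG.Lin
import Pool.Agent.H223.PG.Growth

set_option autoImplicit false
set_option linter.unusedSectionVars false

open scoped Manifold ContDiff Topology Pointwise
open Set Filter

namespace Pool.Agent.H223.PG

open Pool.Agent.H721R2 Pool.Agent.H789R2.AN Pool.Agent.H721R2.CSys
open Pool.Agent.H223.CE

/-- the elementary inequality behind the symmetric condition -/
theorem either_cond {x y z t : ℝ} (hx : 0 < x) (hy : 0 < y) (hz : 0 < z) (ht : 0 < t)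
    (h : (z / x - 1) * (t / y - 1) < 4) :
    (z - x) * t < (z + t) * y ∨ (t - y) * z < (t + z) * x := by
  by_contra hcon
  push Not at hcon
  obtain ⟨h1, h2⟩ := hcon
  have h3 : 0 < z - x := by
    by_contra h4
    have h5 : (z - x) * t ≤ 0 := mul_nonpos_of_nonpos_of_nonneg (by linarith) ht.le
    have h6 : 0 < (z + t) * y := by positivity
    linarith
  have h4 : 0 < t - y := by
    by_contra h4
    have h5 : (t - y) * z ≤ 0 := mul_nonpos_of_nonpos_of_nonneg (by linarith) hz.le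
    have h6 : 0 < (t + z) * x := by positivity
    linarith
  have h5 : ((z + t) * y) * ((t + z) * x) ≤ ((z - x) * t) * ((t - y) * z) :=
    mul_le_mul h1 h2 (by positivity) (by positivity)
  have h6 : (z / x - 1) * (t / y - 1) = (z - x) * (t - y) / (x * y) := by
    field_simp
  rw [h6, div_lt_iff₀ (by positivity)] at h
  have h7 : 4 * (x * y) * (z * t) ≤ ((z - x) * (t - y)) * (z * t) := by
    have h8 : 4 * (x * y) * (z * t) ≤ ((z + t) * y) * ((t + z) * x) := by
      nlinarith [mul_nonneg (mul_nonneg hx.le hy.le) (sq_nonneg (z - t))]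
    nlinarith
  have h8 := le_of_mul_le_mul_right h7 (by positivity)
  linarith

variable {X : Type*} [MetricSpace X]

/-- Large-scale hyperbolicity with rates: for some `N ≥ 1` and constants `μ, ν, Λ, Λ' > 1` and `C`,
if `d(x, y) ≥ C` then `d(Fᴺ x, Fᴺ y) ≥ μ d(x, y)` or `d(F⁻ᴺ x, F⁻ᴺ y) ≥ ν d(x, y)`;
`d(Fᴺ x, Fᴺ y) ≤ Λ d(x, y) + C` and `d(F⁻ᴺ x, F⁻ᴺ y) ≤ Λ' d(x, y) + C` for all `x`, `y`; and
`(log Λ / log μ - 1) (log Λ' / log ν - 1) < 4`. -/
def RatesPinched (F : X ≃ₜ X) : Prop :=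
  ∃ (N : ℕ) (μ ν Λ Λ' C : ℝ), 1 ≤ N ∧ 1 < μ ∧ 1 < ν ∧ 1 < Λ ∧ 1 < Λ' ∧
    (∀ x y : X, C ≤ dist x y → μ * dist x y ≤ dist (F^[N] x) (F^[N] y) ∨
      ν * dist x y ≤ dist (F.symm^[N] x) (F.symm^[N] y)) ∧
    (∀ x y : X, dist (F^[N] x) (F^[N] y) ≤ Λ * dist x y + C) ∧
    (∀ x y : X, dist (F.symm^[N] x) (F.symm^[N] y) ≤ Λ' * dist x y + C) ∧
    (Real.log Λ / Real.log μ - 1) * (Real.log Λ' / Real.log ν - 1) < 4

theorem rates_poly {G : X ≃ₜ X} {μ ν Λ Λ' C : ℝ} (hμ : 1 < μ) (hν : 1 < ν) (hΛ : 1 < Λ)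
    (hΛ' : 1 < Λ') (hC : 1 ≤ C)
    (hCH : ∀ x y, C ≤ dist x y → μ * dist x y ≤ dist (G x) (G y) ∨
      ν * dist x y ≤ dist (G.symm x) (G.symm y))
    (hL : ∀ x y, dist (G x) (G y) ≤ Λ * dist x y + C)
    (hL' : ∀ x y, dist (G.symm x) (G.symm y) ≤ Λ' * dist x y + C)
    (hp : (Real.log Λ - Real.log μ) * Real.log Λ' <
      (Real.log Λ + Real.log Λ') * Real.log ν) : PolyBrackets G := by
  rcases le_total μ Λ with h | h
  · exact lin_poly hμ hν h hΛ' hC hCH hL hL' hp
  · refine lin_poly (Λ := μ) hμ hν le_rfl hΛ' hC hCH (fun x y => ?_) hL' ?_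
    · refine (hL x y).trans ?_
      have := mul_le_mul_of_nonneg_right h (dist_nonneg (x := x) (y := y))
      linarith
    · rw [sub_self, zero_mul]
      have := Real.log_pos hμ
      have := Real.log_pos hν
      have := Real.log_pos hΛ'
      positivity

theorem rates_main {F : X ≃ₜ X} (h : RatesPinched F) : CoarselyDominated F ∧
    ∃ (N : ℕ) (μ ν : ℝ), 1 ≤ N ∧ 1 < μ ∧ 1 < ν ∧ LogContracts (F.symm^[N]) μ ∧
      LogContracts (F^[N]) ν ∧ PolyBrackets F := by
  obtain ⟨N, μ, ν, Λ, Λ', C₀, hN, hμ, hν, hΛ, hΛ', hCH, hL, hL', hp⟩ := h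
  set C := max C₀ 1 with hC
  have hC0 : C₀ ≤ C := le_max_left _ _
  have hC1 : 1 ≤ C := le_max_right _ _
  set G : X ≃ₜ X := iterHomeo F N with hG
  have hCH' : ∀ x y, C ≤ dist x y → μ * dist x y ≤ dist (G x) (G y) ∨
      ν * dist x y ≤ dist (G.symm x) (G.symm y) := fun x y h => hCH x y (hC0.trans h)
  have hLG : ∀ x y, dist (G x) (G y) ≤ Λ * dist x y + C := fun x y =>
    (hL x y).trans (by linarith)
  have hLG' : ∀ x y, dist (G.symm x) (G.symm y) ≤ Λ' * dist x y + C := fun x y =>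
    (hL' x y).trans (by linarith)
  have hCH'' : ∀ x y, C ≤ dist x y → ν * dist x y ≤ dist (G.symm x) (G.symm y) ∨
      μ * dist x y ≤ dist (G.symm.symm x) (G.symm.symm y) := fun x y h => (hCH' x y h).symm
  have as1' : ∀ x y, Asymp F x y → Asymp G x y := fun x y h => iter_of_as hN h
  have as2' : ∀ x y, Asymp F.symm x y → Asymp G.symm x y := fun x y h => iter_of_as hN h
  have hPG : PolyBrackets G := by
    rcases either_cond (Real.log_pos hμ) (Real.log_pos hν) (Real.log_pos hΛ) (Real.log_pos hΛ') hp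
      with h | h
    · exact rates_poly hμ hν hΛ hΛ' hC1 hCH' hLG hLG' h
    · exact polyBrackets_symm (rates_poly (G := G.symm) hν hμ hΛ' hΛ hC1 hCH'' hLG' hLG h)
  refine ⟨⟨N, hN, ν⁻¹, μ, μ * C, by positivity, ?_, fun x y hxy => ?_, fun x y hxy => ?_⟩,
    N, μ, ν, hN, hμ, hν, logContracts_of_ch hμ hν hC1 hCH',
    logContracts_of_ch (G := G.symm) hν hμ hC1 hCH'', ?_⟩
  · exact (inv_lt_one_of_one_lt₀ hν).trans hμ
  · rcases le_or_gt C (dist x y) with h | h
    · have h1 := unst hμ hν hC1 hCH' (as2' _ _ hxy) h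
      have h2 : 0 ≤ μ * C := by nlinarith
      have h3 : dist (F^[N] x) (F^[N] y) = dist (G x) (G y) := rfl
      rw [h3]
      linarith
    · have h1 : μ * dist x y ≤ μ * C := mul_le_mul_of_nonneg_left h.le (by linarith)
      have h2 : 0 ≤ dist (F^[N] x) (F^[N] y) := dist_nonneg
      linarith
  · have h3 : dist (F^[N] x) (F^[N] y) = dist (G x) (G y) := rfl
    rw [h3]
    have hinv : 0 < ν⁻¹ := by positivity
    rcases le_or_gt C (dist (G x) (G y)) with h | h
    · have h0 : Asymp G (G x) (G y) := As.iter (as1' _ _ hxy) 1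
      have h1 := unst (G := G.symm) hν hμ hC1 hCH'' (a := G x) (b := G y) h0 h
      rw [Homeomorph.symm_apply_apply, Homeomorph.symm_apply_apply] at h1
      have h2 : dist (G x) (G y) ≤ ν⁻¹ * dist x y := by
        rw [inv_mul_eq_div, le_div_iff₀ (by linarith)]
        linarith
      have h4 : 0 ≤ μ * C := by nlinarith
      linarith
    · have h1 : 0 ≤ ν⁻¹ * dist x y := mul_nonneg hinv.le dist_nonneg
      have h4 : C ≤ μ * C := le_mul_of_one_le_left (by linarith) hμ.le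
      linarith
  · obtain ⟨A, k, hk, h⟩ := hPG
    exact ⟨A, k, hk, fun x y w h1 h2 => h x y w (as1' _ _ h1) (as2' _ _ h2)⟩

end Pool.Agent.H223.PG
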