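import Pool.Agent.H223.PG.Man
import Pool.Agent.H223.PG.Count
import Pool.Agent.H223.CC.Corr

set_option autoImplicit false
set_option linter.unusedSectionVars false

open scoped Manifold ContDiff Topology
open Set Filter

namespace Pool.Agent.H223.PG

open Pool.Agent.H721R2 Pool.Agent.H789R2.AN Pool.Agent.H721R2.CSys
open Pool.Agent.H223.CE

section sc

variable {M X : Type*} [MetricSpace M] [MetricSpace X] {P : X → M} {r ρ : ℝ}
  {H : Sheets P r ρ} {G : X ≃ X}

/-- uniform contraction of the stable pairs in a compact set -/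
theorem sc_core (T : CSys (LX H)) (hTg : T.g = lmap H G) (hTρ : T.εs < ρ) (hu : UCont G)
    (hU : ∀ x y, As G x y → As G.symm x y → x = y) (C : Set (X × X)) (hC : IsCompact C)
    (hCs : ∀ p ∈ C, As G p.1 p.2) (δ : ℝ) (hδ : 0 < δ) :
    ∃ m : ℕ, ∀ p ∈ C, ∀ n ≥ m, dist (G^[n] p.1) (G^[n] p.2) ≤ δ := by
  have hδ0 := T.δ_pos
  have hδρ : T.δ < ρ := lt_of_le_of_lt T.δ_le_εs hTρ
  have hα0 := T.α_pos
  have hcG : Continuous G := by
    rw [Metric.continuous_iff]
    intro a ε hε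
    obtain ⟨δ, hδ, h⟩ := hu ε hε
    exact ⟨δ, hδ, fun y hy => h _ _ hy⟩
  obtain ⟨s0, hs0, hsT⟩ := lx_near H hδ0 hδρ
  obtain ⟨ε', hε', hsm⟩ := lx_small H hδ
  have tα : Tendsto (fun n : ℕ => T.α ^ n * T.εs) atTop (𝓝 0) := by
    have := (tendsto_pow_atTop_nhds_zero_of_lt_one hα0
      (by linarith [T.α_le] : T.α < 1)).mul_const T.εs
    simpa using this
  obtain ⟨k0, hk0⟩ := eventually_atTop.mp ((tendsto_order.mp tα).2 ε' hε')
  have key : ∃ m : ℕ, ∀ p ∈ C, p ∈ C → ∀ n ≥ m, dist (G^[n] p.1) (G^[n] p.2) ≤ δ := by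
    refine hC.induction_on (p := fun S => ∃ m : ℕ, ∀ p ∈ S, p ∈ C → ∀ n ≥ m,
      dist (G^[n] p.1) (G^[n] p.2) ≤ δ) ⟨0, by simp⟩ ?_ ?_ ?_
    · rintro s t hst ⟨m, h⟩
      exact ⟨m, fun p hp => h p (hst hp)⟩
    · rintro s t ⟨m, h⟩ ⟨m', h'⟩
      refine ⟨max m m', ?_⟩
      rintro p (hp | hp) hpC n hn
      · exact h p hp hpC n ((le_max_left _ _).trans hn)
      · exact h' p hp hpC n ((le_max_right _ _).trans hn)
    · intro p hp
      obtain ⟨n0, hn0⟩ := eventually_atTop.mp ((tendsto_order.mp (hCs p hp)).2 s0 hs0)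
      have hV : {q : X × X | dist (G^[n0] q.1) (G^[n0] q.2) < s0} ∈ 𝓝 p := by
        have hVo : IsOpen {q : X × X | dist (G^[n0] q.1) (G^[n0] q.2) < s0} :=
          isOpen_lt (((hcG.iterate n0).comp continuous_fst).dist
            ((hcG.iterate n0).comp continuous_snd)) continuous_const
        exact hVo.mem_nhds (show dist (G^[n0] p.1) (G^[n0] p.2) < s0 from hn0 n0 le_rfl)
      refine ⟨_, mem_nhdsWithin_of_mem_nhds hV, k0 + n0, fun q hq hqC n hn => ?_⟩
      have h1 : As G (G^[n0] q.1) (G^[n0] q.2) := As.iter (hCs q hqC) n0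
      have h2 := hsT _ _ hq
      have h3 := locS T hTg hU h1 (h2.trans (by linarith))
      have h4 := (T.contrS _ _ h3 (n - n0)).trans
        (mul_le_mul_of_nonneg_left h3.dist_le (by positivity : 0 ≤ T.α ^ (n - n0)))
      have h5 := hsm _ _ (lt_of_le_of_lt h4 (hk0 (n - n0) (by omega)))
      rw [hTg, lmap_iter, lmap_iter] at h5
      have e : ∀ v : X, G^[n - n0] (G^[n0] v) = G^[n] v := by
        intro v
        rw [← Function.iterate_add_apply, Nat.sub_add_cancel (by omega)]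
      have h6 : dist (G^[n - n0] (G^[n0] q.1)) (G^[n - n0] (G^[n0] q.2)) < δ := h5
      rw [e, e] at h6
      exact h6.le
  obtain ⟨m, hm⟩ := key
  exact ⟨m, fun p hp => hm p hp hp⟩

end sc

variable {E : Type*} [NormedAddCommGroup E] [NormedSpace ℝ E] [FiniteDimensional ℝ E]
  {M : Type*} [TopologicalSpace M] [T2Space M] [CompactSpace M] [ConnectedSpace M]
  [ChartedSpace E M] [IsManifold 𝓘(ℝ, E) ∞ M]
  {X : Type*} [MetricSpace X] [ProperSpace X] [ConnectedSpace X]
  {Γ : Type*} [Group Γ] [MulAction Γ X] [IsIsometricSMul Γ X]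

/-- coarse boundedness of equivariant maps -/
theorem cob_of_lift {K : Set X} (hK : IsCompact K) (hKΓ : ∀ x, ∃ γ : Γ, γ • x ∈ K) {F : X → X}
    (hF : Continuous F) (hno : ∀ γ : Γ, ∃ γ' : Γ, ∀ x, F (γ • x) = γ' • F x) : CoB F := by
  intro c
  have hKc : IsCompact (K ×ˢ Metric.cthickening c K) := hK.prod hK.cthickening
  have hcont : Continuous (fun p : X × X => dist (F p.1) (F p.2)) :=
    (hF.comp continuous_fst).dist (hF.comp continuous_snd)
  obtain ⟨D, hD⟩ := (hKc.bddAbove_image hcont.continuousOn)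
  refine ⟨D, fun x y hxy => ?_⟩
  obtain ⟨γ, hγ⟩ := hKΓ x
  obtain ⟨γ', hγ'⟩ := hno γ
  have h6 : (γ • x, γ • y) ∈ K ×ˢ Metric.cthickening c K := by
    refine ⟨hγ, Metric.mem_cthickening_of_dist_le (γ • y) (γ • x) c K hγ ?_⟩
    rw [dist_smul, dist_comm]; exact hxy
  have h7 := hD (mem_image_of_mem _ h6)
  have h8 : dist (F (γ • x)) (F (γ • y)) ≤ D := h7
  rwa [hγ', hγ', dist_smul] at h8

/-- from a power to the map -/
theorem sc_of_power {F : X → X} (hu : UCont F) {N : ℕ} (hN : 1 ≤ N)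
    (h : ∀ K : ℝ, ∀ δ > 0, ∃ m : ℕ, ∀ x y, Asymp F x y → dist x y ≤ K → ∀ n ≥ m,
      dist (F^[N * n] x) (F^[N * n] y) ≤ δ) : SC F := by
  intro K δ hδ
  obtain ⟨δ', hδ', h1⟩ := hu.iters N δ hδ
  obtain ⟨m, hm⟩ := h K (δ' / 2) (half_pos hδ')
  refine ⟨N * m, fun x y hxy hd n hn => ?_⟩
  have h2 := Nat.mod_add_div n N
  have h3 : m ≤ n / N := by
    rw [Nat.le_div_iff_mul_le (by omega)]
    rwa [mul_comm]
  have h4 := hm x y hxy hd (n / N) h3
  have h5 := h1 (n % N) (Nat.mod_lt _ (by omega)).le _ _ (lt_of_le_of_lt h4 (by linarith))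
  rw [← Function.iterate_add_apply, ← Function.iterate_add_apply, h2] at h5
  exact h5.le

/-- the geometry of the covering for an Anosov diffeomorphism with global product structure -/
theorem man_geo (f : Diffeomorph 𝓘(ℝ, E) 𝓘(ℝ, E) M M 1)
    (Es Eu : ∀ x : M, Submodule ℝ (TangentSpace 𝓘(ℝ, E) x)) (hA : IsAnosov f Es Eu)
    (P : X → M) (hP : IsCoveringMap P) (hs : Function.Surjective P)
    (hΓ : ∀ x y, P x = P y ↔ ∃ γ : Γ, γ • x = y) (F : X ≃ₜ X) (hF : ∀ x, P (F x) = f (P x))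
    (hGP : ∀ x y, ∃! w, Asymp F x w ∧ Asymp F.symm y w) :
    BGeom X ∧ CoB F ∧ CoB F.symm ∧ SC F ∧ SC F.symm := by
  obtain ⟨hbb, br, hbc, hbr⟩ := (man_bb f Es Eu hA P hP hs hΓ F hF).2 hGP
  obtain ⟨m, e, he, hemb, hinj⟩ := exists_embedding_euclidean_of_compact (I := 𝓘(ℝ, E)) (M := M)
  let _ : MetricSpace M := hemb.isEmbedding.comapMetricSpace e
  have hiso : ∀ x y : M, dist x y = ‖e x - e y‖ := fun x y => dist_eq_norm (e x) (e y)
  have he1 : ContMDiff 𝓘(ℝ, E) (𝓡 m) 1 e := he.of_le (by simp)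
  obtain ⟨N, S, -, hN, hg⟩ := exists_sys_mul hiso he1 hinj f Es Eu hA 1 le_rfl
  obtain ⟨K, hK, hKΓ⟩ := exists_K (Γ := Γ) hP hs hΓ
  obtain ⟨r, ρ, H⟩ := exists_sheets (Γ := Γ) hP hΓ hK hKΓ
  have hF' : ∀ x, P (F.symm x) = f.symm (P x) := by
    intro x
    apply f.injective
    show f (P (F.symm x)) = f (f.symm (P x))
    rw [← hF, Homeomorph.apply_symm_apply]
    exact (f.apply_symm_apply _).symm
  have hu : UCont F := lift_ucont (Γ := Γ) hP hΓ hK hKΓ (f := f) F.continuous hF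
  have hu' : UCont F.symm :=
    lift_ucont (Γ := Γ) hP hΓ hK hKΓ (f := f.symm) F.symm.continuous hF'
  have hno1 : ∀ γ : Γ, ∃ γ' : Γ, ∀ x, F (γ • x) = γ' • F x :=
    lift_normal hP hΓ (f := f) F.continuous hF
  have hno2 : ∀ γ : Γ, ∃ γ' : Γ, ∀ x, F.symm (γ • x) = γ' • F.symm x :=
    lift_normal hP hΓ (f := f.symm) F.symm.continuous hF'
  set G : X ≃ X := (iterHomeo F N).toEquiv with hGdef
  have hGf : ∀ x, G x = F^[N] x := fun _ => rfl
  have hGi : ∀ (n : ℕ) x, G^[n] x = F^[N * n] x := by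
    intro n x
    rw [Function.iterate_mul]; rfl
  have hGsi : ∀ (n : ℕ) x, G.symm^[n] x = F.symm^[N * n] x := by
    intro n x
    rw [Function.iterate_mul]; rfl
  have hG : ∀ x, P (G x) = S.g (P x) := by
    intro x
    have h1 : ∀ (k : ℕ) (x : X), P (F^[k] x) = f^[k] (P x) := by
      intro k
      induction k with
      | zero => intro x; rfl
      | succ k ih => intro x; rw [Function.iterate_succ_apply, Function.iterate_succ_apply, ih, hF]
    rw [hg, hGf, h1]; rfl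
  have huG : UCont G := hu.iter N
  have huG' : UCont G.symm := hu'.iter N
  have as1 : ∀ x y, As G x y → As F x y := fun x y h => as_of_iter hu hN h
  have as2 : ∀ x y, As G.symm x y → As F.symm x y := fun x y h => as_of_iter hu' hN h
  have as1' : ∀ x y, As F x y → As G x y := fun x y h => iter_of_as hN h
  have as2' : ∀ x y, As F.symm x y → As G.symm x y := fun x y h => iter_of_as hN h
  obtain ⟨T, hTg, -, -, hTρ, -⟩ := exists_lift S H hG huG huG' 0 1 one_pos
  have hTg' : T.symm.g = lmap H G.symm := by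
    show T.g.symm = _
    rw [hTg]; rfl
  have hTρ' : T.symm.εs < ρ := hTρ
  have huq : ∀ x y, Asymp F x y → Asymp F.symm x y → x = y := by
    intro x y h1 h2
    obtain ⟨w, -, hw⟩ := hGP x x
    rw [hw x ⟨As.refl _ _, As.refl _ _⟩, hw y ⟨h1, h2⟩]
  have huqG : ∀ x y, As G x y → As G.symm x y → x = y := fun x y h h' =>
    huq x y (as1 _ _ h) (as2 _ _ h')
  refine ⟨bgeom (Γ := Γ) hK hKΓ, cob_of_lift hK hKΓ F.continuous hno1,
    cob_of_lift hK hKΓ F.symm.continuous hno2, ?_, ?_⟩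
  · apply sc_of_power hu hN
    intro K' δ hδ
    set C : Set (X × X) := (K ×ˢ Metric.cthickening K' K) ∩ {p | br p.1 p.2 = p.2} with hC
    have hCc : IsCompact C := by
      apply (hK.prod hK.cthickening).inter_right
      exact isClosed_eq hbc continuous_snd
    obtain ⟨m, hm⟩ := sc_core T hTg hTρ huG huqG C hCc (fun p hp => by
      have h1 := (hbr p.1 p.2).1
      have h2 : br p.1 p.2 = p.2 := hp.2
      rw [h2] at h1
      exact as1' _ _ h1) δ hδ
    refine ⟨m, fun x y hxy hd n hn => ?_⟩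
    obtain ⟨γ, hγ⟩ := hKΓ x
    have h3 : Asymp F (γ • x) (γ • y) := by
      refine Tendsto.congr (fun n => ?_) hxy
      rw [inv_iter hno1]
    have h4 : br (γ • x) (γ • y) = γ • y :=
      huq _ _ ((As.symm (hbr _ _).1).trans h3) (As.symm (hbr _ _).2)
    have h5 := hm (γ • x, γ • y) ⟨⟨hγ, Metric.mem_cthickening_of_dist_le (γ • y) (γ • x) K' K hγ
      (by rw [dist_smul, dist_comm]; exact hd)⟩, h4⟩ n hn
    rw [hGi, hGi] at h5
    rwa [inv_iter hno1] at h5
  · apply sc_of_power hu' hN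
    intro K' δ hδ
    set C : Set (X × X) := (K ×ˢ Metric.cthickening K' K) ∩ {p | br p.2 p.1 = p.2} with hC
    have hCc : IsCompact C := by
      apply (hK.prod hK.cthickening).inter_right
      exact isClosed_eq (hbc.comp continuous_swap) continuous_snd
    obtain ⟨m, hm⟩ := sc_core T.symm hTg' hTρ' huG' (fun x y h h' => huqG x y h' h) C hCc
      (fun p hp => by
        have h1 := (hbr p.2 p.1).2
        have h2 : br p.2 p.1 = p.2 := hp.2
        rw [h2] at h1
        exact as2' _ _ h1) δ hδ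
    refine ⟨m, fun x y hxy hd n hn => ?_⟩
    obtain ⟨γ, hγ⟩ := hKΓ x
    have h3 : Asymp F.symm (γ • x) (γ • y) := by
      refine Tendsto.congr (fun n => ?_) hxy
      rw [inv_iter hno2]
    have h4 : br (γ • y) (γ • x) = γ • y :=
      huq _ _ (As.symm (hbr _ _).1) ((As.symm (hbr _ _).2).trans h3)
    have h5 := hm (γ • x, γ • y) ⟨⟨hγ, Metric.mem_cthickening_of_dist_le (γ • y) (γ • x) K' K hγ
      (by rw [dist_smul, dist_comm]; exact hd)⟩, h4⟩ n hn
    rw [hGsi, hGsi] at h5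
    rwa [inv_iter hno2] at h5

end Pool.Agent.H223.PG
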