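import Pool.Agent.H223.PG.Eng2

set_option autoImplicit false
set_option linter.unusedSectionVars false

namespace Pool.Agent.H223.PG

open Pool.Agent.H721R2 Pool.Agent.H721R2.CSys Pool.Agent.H789R2.AN Filter Topology
open Pool.Agent.H223.CE

/-- The brackets of points at bounded distance are at bounded distance. -/
def BBr {X : Type*} [MetricSpace X] (G : X ≃ X) : Prop :=
  ∀ c : ℝ, ∃ D : ℝ, ∀ x y w, dist x y ≤ c → As G x w → As G.symm y w → dist x w ≤ D

variable {M X E : Type*} [MetricSpace M] [MetricSpace X] [NormedAddCommGroup E] [NormedSpace ℝ E]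
  {P : X → M} {r ρ : ℝ}

/-- **Swap in the covering space.** -/
theorem swapX2 [CompactSpace M] (S : HypSys M E) (H : Sheets P r ρ) {G : X ≃ X}
    (hG : ∀ x, P (G x) = S.g (P x)) (hu : UCont G) (hu' : UCont G.symm)
    (hbb : BBr G) (hB : BPieces G) (x y z : X)
    (hxy : As G x y) (hxz : As G.symm x z) : ∃ w, As G.symm y w ∧ As G z w := by
  obtain ⟨εb, hεb, hB⟩ := hB
  obtain ⟨T, hTg, hms, hmu, hTρ, hsm⟩ := exists_lift S H hG hu hu' 0 εb hεb
  have hTg' : T.g.symm = lmap H G.symm := by rw [hTg]; rfl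
  have hδρ : T.δ < ρ := lt_of_le_of_lt T.δ_le_εs hTρ
  have C : CoarseB T (fun a b => dist a.val b.val) := {
    self := fun _ => dist_self _
    comm := fun _ _ => dist_comm _ _
    tri := fun _ _ _ => dist_triangle _ _ _
    small0 := by
      intro a b hab
      rw [lx_dist, ndist_le_iff hTρ] at hab
      exact (hsm _ _ hab.1 hab.2).2.2.1 0 le_rfl
    bb := by
      intro c
      obtain ⟨D, hD⟩ := hbb c
      refine ⟨D, fun z y w hzy h1 h2 => ?_⟩
      rw [hTg] at h1
      rw [hTg'] at h2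
      exact hD _ _ _ hzy (as_of_lx H h1) (as_of_lx H h2)
    bp := by
      intro r'
      obtain ⟨η', hη', hc⟩ := H.cont (T.δ / 2) (by linarith [T.δ_pos])
      obtain ⟨m, hm⟩ := hB r' (min η' r / 2) (half_pos (lt_min hη' H.r_pos))
      refine ⟨m, fun k c hstep hball => ?_⟩
      have h1 := hm k (fun i => (c i).val) (fun i hi l => by
        have h2 := hstep i hi
        rw [hTg'] at h2
        have h3 := frel_lx H hδρ h2 l
        exact (hsm _ _ h3.1 (h3.2.trans T.δ_le_εs)).2.2.2) hball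
      intro j
      rw [← Function.iterate_add_apply, ← Function.iterate_add_apply, hTg', lx_dist, lmap_iter,
        lmap_iter]
      have h4 := h1 (j + m) (by omega)
      have h5 : 0 < min η' r := lt_min hη' H.r_pos
      have h6 : dist (G.symm^[j + m] (c 0).val) (G.symm^[j + m] (c k).val) < min η' r := by
        linarith
      rw [ndist_le_iff (by linarith [T.δ_pos])]
      exact ⟨lt_of_lt_of_le h6 (min_le_right _ _),
        (hc _ _ (lt_of_lt_of_le h6 (min_le_left _ _))).le⟩ }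
  have h1 : As T.g (⟨x⟩ : LX H) ⟨y⟩ := by rw [hTg]; exact lx_of_as H hxy
  have h2 : As T.g.symm (⟨x⟩ : LX H) ⟨z⟩ := by rw [hTg']; exact lx_of_as H hxz
  obtain ⟨N, c, hc0, hcN, hc⟩ := chain_of_as T h1
  obtain ⟨J, d, hd0, hdJ, hd⟩ := chain_of_as T.symm h2
  obtain ⟨w, hw1, hw2⟩ := C.engine hms hmu N J c d hc hd (hc0.trans hd0.symm)
  rw [hcN, hTg'] at hw1
  rw [hdJ, hTg] at hw2
  exact ⟨w.val, as_of_lx H hw1, as_of_lx H hw2⟩

/-- **Swap in the base.** -/
theorem swapM2 [CompactSpace M] (S : HypSys M E) (H : Sheets P r ρ)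
    (hsurj : Function.Surjective P) {G : X ≃ X}
    (hG : ∀ x, P (G x) = S.g (P x)) (hu : UCont G) (hu' : UCont G.symm)
    (hbb : BBr G) (hB : BPieces G) (x y z : M)
    (hxy : WS S.g x y) (hxz : WS S.g.symm x z) : ∃ w, WS S.g.symm y w ∧ WS S.g z w := by
  obtain ⟨x, rfl⟩ := hsurj x
  obtain ⟨η, hη, hηρ, hsc⟩ := exists_scale H hu hu' 0 1 one_pos
  have hG0 : ∀ x, P (G x) = S.g.toEquiv (P x) := hG
  have hG1 : ∀ x, P (G.symm x) = S.g.toEquiv.symm (P x) := proj_symm hG0
  obtain ⟨y, rfl, hy⟩ := lift_as H hG0 hη hηρ (fun a b hab h => (hsc a b hab h).1) hxy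
  obtain ⟨z, rfl, hz⟩ := lift_as H hG1 hη hηρ (fun a b hab h => (hsc a b hab h).2.1) hxz
  obtain ⟨w, hw1, hw2⟩ := swapX2 S H hG hu hu' hbb hB x y z hy hz
  exact ⟨P w, proj_as H hG1 hw1, proj_as H hG0 hw2⟩

/-- global product in the covering space -/
theorem globalX2 [CompactSpace M] [PreconnectedSpace X] (S : HypSys M E) (H : Sheets P r ρ)
    {G : X ≃ X} (hG : ∀ x, P (G x) = S.g (P x)) (hu : UCont G) (hu' : UCont G.symm)
    (hbb : BBr G) (hB : BPieces G) (x y : X) :
    ∃ w, As G x w ∧ As G.symm y w := by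
  obtain ⟨T, hTg, -, -, hTρ, -⟩ := exists_lift S H hG hu hu' 0 1 one_pos
  have hTg' : T.g.symm = lmap H G.symm := by rw [hTg]; rfl
  have hδ0 := T.δ_pos
  have h2δ : 2 * T.δ < ρ := by
    have := T.e36
    have := T.Kδ_pos
    linarith
  obtain ⟨η, hη, hc⟩ := H.cont (2 * T.δ) (by linarith)
  have hmin : 0 < min η r := lt_min hη H.r_pos
  set A : Set X := {y | ∃ w, As G x w ∧ As G.symm y w} with hA
  have key : ∀ y y', dist y y' < min η r → y ∈ A → y' ∈ A := by
    rintro y y' hyy' ⟨w, hw1, hw2⟩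
    have h1 : dist (⟨y⟩ : LX H) ⟨y'⟩ ≤ 2 * T.δ := by
      rw [lx_dist, ndist_le_iff h2δ]
      exact ⟨lt_of_lt_of_le hyy' (min_le_right _ _),
        (hc _ _ (lt_of_lt_of_le hyy' (min_le_left _ _))).le⟩
    obtain ⟨z, hz1, hz2⟩ := T.lp _ _ h1
    have h9 : 9 * T.K * dist (⟨y⟩ : LX H) ⟨y'⟩ ≤ T.εs := by
      have h3 := T.e36
      have h4 := T.Kδ_pos
      have h5 : 9 * T.K * dist (⟨y⟩ : LX H) ⟨y'⟩ ≤ 9 * T.K * (2 * T.δ) :=
        mul_le_mul_of_nonneg_left h1 (by linarith [T.one_le_K])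
      linarith
    have hS1 : As G y z.val := by
      have := as_of_frel T h9 hz1
      rw [hTg] at this
      exact as_of_lx H this
    have hU1 : As G.symm z.val y' := by
      have := asU_of_frel T h9 hz2
      rw [hTg'] at this
      exact as_of_lx H this
    obtain ⟨v, hv1, hv2⟩ := swapX2 S H hG hu hu' hbb hB y z.val w hS1 hw2
    exact ⟨v, hw1.trans hv2, hU1.symm.trans hv1⟩
  have hopen : IsOpen A := by
    rw [Metric.isOpen_iff]
    exact fun y hy => ⟨_, hmin, fun y' hy' => key y y' (by rw [dist_comm]; exact hy') hy⟩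
  have hclosed : IsClosed A := by
    rw [← isOpen_compl_iff, Metric.isOpen_iff]
    exact fun y hy => ⟨_, hmin, fun y' hy' h => hy (key y' y hy' h)⟩
  have huniv : A = Set.univ := IsClopen.eq_univ ⟨hclosed, hopen⟩ ⟨x, x, As.refl _ _, As.refl _ _⟩
  have : y ∈ A := by rw [huniv]; trivial
  exact this

end Pool.Agent.H223.PG
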